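import Pool.Agent.Lib.MP_e43fce_nt.Gaps.Irr3

/-!
A polynomial lower bound for linear forms in `log 2` and `log 3`.
-/

set_option autoImplicit false

open Real

namespace Pool.Agent.Lib.MP_e43fce_nt.Gaps

/-- The constant of the lcm bound. -/
noncomputable def C1 : ℝ := exp (8 * (80 / log (3 / 2)) ^ 3)

lemma one_le_C1 : 1 ≤ C1 := by
  unfold C1
  apply one_le_exp
  have : 0 < log (3 / 2 : ℝ) := log_pos (by norm_num)
  positivity

lemma cube_le {t : ℝ} (ht : 0 ≤ t) :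
    8 * t ^ 3 ≤ log (3 / 2) / 10 * t ^ 4 + 8 * (80 / log (3 / 2)) ^ 3 := by
  have hc : 0 < log (3 / 2 : ℝ) := log_pos (by norm_num)
  set c := log (3 / 2 : ℝ)
  rcases le_total t (80 / c) with h | h
  · have h1 : t ^ 3 ≤ (80 / c) ^ 3 := pow_le_pow_left₀ ht h 3
    have h2 : 0 ≤ c / 10 * t ^ 4 := by positivity
    linarith
  · have h1 : 80 ≤ t * c := by rwa [div_le_iff₀ hc] at h
    have h2 : 0 ≤ 8 * (80 / c) ^ 3 := by positivity
    have h3 : 8 * t ^ 3 ≤ c / 10 * t ^ 4 := by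
      have : c / 10 * t ^ 4 - 8 * t ^ 3 = t ^ 3 / 10 * (t * c - 80) := by ring
      have h4 : 0 ≤ t ^ 3 / 10 * (t * c - 80) := by
        apply mul_nonneg (by positivity); linarith
      linarith
    linarith

lemma lcm_le (r : ℕ) : (Nat.lcmUpto (10 * r) : ℝ) ≤ C1 * (4 ^ 10 * (3 / 2)) ^ r := by
  rcases Nat.eq_zero_or_pos r with h0 | h0
  · subst h0
    simp [Nat.lcmUpto]
    exact one_le_C1
  · have hD : (0 : ℝ) < Nat.lcmUpto (10 * r) := by exact_mod_cast Nat.lcmUpto_pos _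
    have hx : (1 : ℝ) ≤ ((10 * r : ℕ) : ℝ) := by
      exact_mod_cast (by omega : 1 ≤ 10 * r)
    have h1 := Chebyshev.psi_le hx
    rw [Chebyshev.psi_eq_log_lcmUpto] at h1
    have hr0 : (0 : ℝ) < r := by exact_mod_cast h0
    set y : ℝ := ((10 * r : ℕ) : ℝ) with hy
    have hy' : y = 10 * r := by rw [hy]; push_cast; ring
    have hy0 : 0 < y := by linarith
    set t : ℝ := y ^ (1 / 4 : ℝ) with ht
    have ht0 : 0 ≤ t := by positivity
    have ht4 : t ^ 4 = y := by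
      rw [ht, ← rpow_natCast, ← rpow_mul hy0.le]; norm_num
    have hsq : √y = t ^ 2 := by
      rw [← ht4]
      rw [show t ^ 4 = (t ^ 2) ^ 2 by ring]
      exact sqrt_sq (by positivity)
    have hlog : log y ≤ 4 * t := by
      have := log_le_rpow_div hy0.le (show (0 : ℝ) < 1 / 4 by norm_num)
      rw [← ht] at this
      linarith
    have h2 : log (Nat.lcmUpto (10 * r) : ℝ) ≤ log 4 * y + 8 * t ^ 3 := by
      calc _ ≤ log 4 * y + 2 * √y * log y := h1
        _ ≤ log 4 * y + 2 * √y * (4 * t) := by gcongr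
        _ = _ := by rw [hsq]; ring
    have h3 := cube_le ht0
    rw [ht4] at h3
    rw [← log_le_log_iff hD (by have := one_le_C1; positivity),
      log_mul (by have := one_le_C1; positivity) (by positivity), C1, log_exp, log_pow,
      log_mul (by norm_num) (by norm_num), log_pow]
    have h4 : log 4 * y = (r : ℝ) * (10 * log 4) := by rw [hy']; ring
    have h5 : log (3 / 2) / 10 * y = r * log (3 / 2) := by rw [hy']; ring
    push_cast
    rw [mul_add]
    linarith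

/-- The constant of the final bound. -/
noncomputable def K3 : ℝ := C0 * 10 ^ 8

lemma one_lt_K3 : 1 < K3 := by
  unfold K3 C0; norm_num

lemma abs_pc_le (r : ℕ) : |(pc r : ℝ)| ≤ (C0 : ℝ) ^ r := by
  have h := abs_coeff_le r (10 * r)
  unfold pc
  exact_mod_cast h

lemma form_lower {u₁ u₂ : ℤ} (hne : u₁ ≠ 0 ∨ u₂ ≠ 0) {H : ℝ} (h1 : |(u₁ : ℝ)| ≤ H)
    (h2 : |(u₂ : ℝ)| ≤ H) {r : ℕ} (hr : 10 ≤ r) (hrH : C1 * H ≤ 2 ^ r) :
    1 / (216 * C1) * (K3 ^ r)⁻¹ ≤ |u₁ * log (9 / 8) + u₂ * log (4 / 3)| := by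
  set Λ : ℝ := u₁ * log (9 / 8) + u₂ * log (4 / 3) with hΛ
  have hC1 := one_le_C1
  have hK3 := one_lt_K3
  have hC1pos : 0 < C1 := by linarith
  have hK3r : 1 ≤ K3 ^ r := one_le_pow₀ hK3.le
  have hH : 0 ≤ H := (abs_nonneg _).trans h1
  have hC0 : (1 : ℝ) ≤ C0 := by unfold C0; norm_num
  obtain ⟨z₁, z₂, e1, e2⟩ := exists_int_forms r
  set D : ℝ := (Nat.lcmUpto (10 * r) : ℝ) with hD
  have hDpos : 0 < D := by rw [hD]; exact_mod_cast Nat.lcmUpto_pos _
  have hDle : D ≤ C1 * (4 ^ 10 * (3 / 2)) ^ r := lcm_le r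
  have hI1 := I1_le' r
  have hI2 := I2_le r
  have hI1n := I_nonneg r (a := 8) (b := 9) (by norm_num) (by norm_num)
  have hI2n := I_nonneg r (a := 9) (b := 12) (by norm_num) (by norm_num)
  have hp := abs_pc_le r
  have eq1 : ((u₁ * z₁ + u₂ * z₂ : ℤ) : ℝ) = D * (u₁ * I r 8 9 + u₂ * I r 9 12) - D * pc r * Λ := by
    push_cast
    rw [hΛ]
    linear_combination (-(u₁ : ℝ)) * e1 - (u₂ : ℝ) * e2
  by_cases hZ : u₁ * z₁ + u₂ * z₂ = 0
  · -- the degenerate case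
    rw [hZ, Int.cast_zero] at eq1
    have eq2 : u₁ * I r 8 9 + u₂ * I r 9 12 = pc r * Λ := by
      have : D * (u₁ * I r 8 9 + u₂ * I r 9 12) = D * (pc r * Λ) := by linarith
      exact mul_left_cancel₀ hDpos.ne' this
    by_cases hbig : 1 / 100 ≤ |Λ|
    · refine le_trans ?_ hbig
      calc 1 / (216 * C1) * (K3 ^ r)⁻¹ ≤ 1 / (216 * C1) * 1 := by
            gcongr
            exact inv_le_one_of_one_le₀ hK3r
        _ ≤ 1 / 100 := by
            rw [mul_one]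
            apply one_div_le_one_div_of_le (by norm_num)
            linarith
    · push Not at hbig
      have hl1 : (1 : ℝ) / 9 ≤ log (9 / 8) := by
        have := one_sub_inv_le_log_of_pos (show (0 : ℝ) < 9 / 8 by norm_num)
        norm_num at this ⊢
        linarith
      have hl2 : log (4 / 3 : ℝ) ≤ 1 / 3 := by
        have := log_le_sub_one_of_pos (show (0 : ℝ) < 4 / 3 by norm_num)
        norm_num at this ⊢
        linarith
      have hl2' : 0 ≤ log (4 / 3 : ℝ) := log_nonneg (by norm_num)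
      have h3 : |(u₁ : ℝ)| * (1 / 9) ≤ |(u₂ : ℝ)| * (1 / 3) + 1 / 100 := by
        calc |(u₁ : ℝ)| * (1 / 9) ≤ |(u₁ : ℝ)| * log (9 / 8) := by gcongr
          _ = |(u₁ : ℝ) * log (9 / 8)| := by
              rw [abs_mul, abs_of_nonneg (a := log (9 / 8 : ℝ)) (by linarith)]
          _ = |Λ - u₂ * log (4 / 3)| := by congr 1; rw [hΛ]; ring
          _ ≤ |Λ| + |u₂ * log (4 / 3)| := abs_sub _ _
          _ = |Λ| + |(u₂ : ℝ)| * log (4 / 3) := by rw [abs_mul, abs_of_nonneg hl2']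
          _ ≤ |(u₂ : ℝ)| * (1 / 3) + 1 / 100 := by
              have : |(u₂ : ℝ)| * log (4 / 3) ≤ |(u₂ : ℝ)| * (1 / 3) := by gcongr
              linarith
      have h4 : |u₁| ≤ 3 * |u₂| := by
        have h5 : ((|u₁| : ℤ) : ℝ) < ((3 * |u₂| + 1 : ℤ) : ℝ) := by
          push_cast; linarith
        have h6 : |u₁| < 3 * |u₂| + 1 := by exact_mod_cast h5
        omega
      have h5 : 1 ≤ |u₂| := by
        apply Int.one_le_abs
        intro h0
        rw [h0] at h4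
        simp at h4
        exact hne.elim (fun h => h h4) (fun h => h h0)
      have h4R : |(u₁ : ℝ)| ≤ 3 * |(u₂ : ℝ)| := by exact_mod_cast h4
      have h5R : 1 ≤ |(u₂ : ℝ)| := by exact_mod_cast h5
      have h6 := six_mul_I1_le hr
      have h7 := le_I2 r
      have h8 : I r 9 12 / 2 ≤ |u₁ * I r 8 9 + u₂ * I r 9 12| := by
        have a1 : |(u₂ : ℝ)| * I r 9 12 - |(u₁ : ℝ)| * I r 8 9 ≤
            |u₁ * I r 8 9 + u₂ * I r 9 12| := by
          have := abs_sub_abs_le_abs_sub (u₂ * I r 9 12) (-(u₁ * I r 8 9))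
          rw [abs_neg, abs_mul, abs_mul, abs_of_nonneg hI2n, abs_of_nonneg hI1n] at this
          refine this.trans (le_of_eq ?_)
          congr 1; ring
        have a2 : |(u₁ : ℝ)| * I r 8 9 ≤ 3 * |(u₂ : ℝ)| * I r 8 9 := by gcongr
        have a3 : I r 9 12 / 2 ≤ |(u₂ : ℝ)| * (I r 9 12 - 3 * I r 8 9) := by
          have b1 : I r 9 12 / 2 ≤ I r 9 12 - 3 * I r 8 9 := by linarith
          have b2 : 0 ≤ I r 9 12 - 3 * I r 8 9 := by linarith
          nlinarith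
        nlinarith
      rw [eq2, abs_mul] at h8
      have h9 : (12 / 10 ^ 8 : ℝ) ^ r / 216 ≤ (C0 : ℝ) ^ r * |Λ| := by
        calc (12 / 10 ^ 8 : ℝ) ^ r / 216 ≤ I r 9 12 / 2 := by linarith
          _ ≤ |(pc r : ℝ)| * |Λ| := h8
          _ ≤ _ := by gcongr
      have h10 : (12 / 10 ^ 8 : ℝ) ^ r / 216 * ((C0 : ℝ) ^ r)⁻¹ ≤ |Λ| := by
        rw [← div_eq_mul_inv, div_le_iff₀ (by positivity)]
        linarith
      refine le_trans ?_ h10
      have e : (K3 ^ r)⁻¹ = (1 / 10 ^ 8) ^ r * ((C0 : ℝ) ^ r)⁻¹ := by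
        rw [K3, mul_pow, mul_inv, one_div, inv_pow]
        ring
      rw [e]
      have h11 : 1 / (216 * C1) * (1 / 10 ^ 8 : ℝ) ^ r ≤ (12 / 10 ^ 8 : ℝ) ^ r / 216 := by
        calc 1 / (216 * C1) * (1 / 10 ^ 8 : ℝ) ^ r ≤ 1 / 216 * (12 / 10 ^ 8 : ℝ) ^ r := by
              gcongr
              · linarith
              · norm_num
          _ = _ := by ring
      calc _ = 1 / (216 * C1) * (1 / 10 ^ 8 : ℝ) ^ r * ((C0 : ℝ) ^ r)⁻¹ := by ring
        _ ≤ _ := by gcongr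
  · have hZ1 : (1 : ℝ) ≤ |((u₁ * z₁ + u₂ * z₂ : ℤ) : ℝ)| := by
      have := Int.one_le_abs hZ
      exact_mod_cast this
    rw [eq1] at hZ1
    have h3 : |D * (u₁ * I r 8 9 + u₂ * I r 9 12)| ≤ 1 / 2 := by
      have a1 : |u₁ * I r 8 9 + u₂ * I r 9 12| ≤ H * ((3 / 10 ^ 7) ^ r / 2) := by
        calc _ ≤ |(u₁ : ℝ) * I r 8 9| + |(u₂ : ℝ) * I r 9 12| := abs_add_le _ _
          _ = |(u₁ : ℝ)| * I r 8 9 + |(u₂ : ℝ)| * I r 9 12 := by
              rw [abs_mul, abs_mul, abs_of_nonneg hI2n, abs_of_nonneg hI1n]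
          _ ≤ H * ((3 / 10 ^ 7) ^ r / 8) + H * (3 * ((3 / 10 ^ 7) ^ r / 8)) := by gcongr
          _ = _ := by ring
      have a2 : D * (3 / 10 ^ 7) ^ r ≤ C1 * (1 / 2) ^ r := by
        calc D * (3 / 10 ^ 7) ^ r ≤ C1 * (4 ^ 10 * (3 / 2)) ^ r * (3 / 10 ^ 7) ^ r := by gcongr
          _ = C1 * (4 ^ 10 * (3 / 2) * (3 / 10 ^ 7)) ^ r := by
              rw [mul_assoc, ← mul_pow]
          _ ≤ C1 * (1 / 2) ^ r := by
              gcongr
              norm_num
      rw [abs_mul, abs_of_pos hDpos]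
      calc D * |u₁ * I r 8 9 + u₂ * I r 9 12| ≤ D * (H * ((3 / 10 ^ 7) ^ r / 2)) := by gcongr
        _ = H / 2 * (D * (3 / 10 ^ 7) ^ r) := by ring
        _ ≤ H / 2 * (C1 * (1 / 2) ^ r) := by gcongr
        _ = (C1 * H) * (1 / 2) ^ r / 2 := by ring
        _ ≤ 2 ^ r * (1 / 2) ^ r / 2 := by gcongr
        _ = 1 / 2 := by rw [← mul_pow]; norm_num
    have h4 : 1 / 2 ≤ D * |(pc r : ℝ)| * |Λ| := by
      have b1 := abs_sub (D * (u₁ * I r 8 9 + u₂ * I r 9 12)) (D * pc r * Λ)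
      have b2 : |D * pc r * Λ| = D * |(pc r : ℝ)| * |Λ| := by
        rw [abs_mul, abs_mul, abs_of_pos hDpos]
      rw [b2] at b1
      linarith
    have h5 : 1 / 2 ≤ (C1 * (4 ^ 10 * (3 / 2)) ^ r) * (C0 : ℝ) ^ r * |Λ| := by
      refine h4.trans ?_
      gcongr
    have h6 : (C1 * (4 ^ 10 * (3 / 2)) ^ r) * (C0 : ℝ) ^ r ≤ C1 * K3 ^ r := by
      have b1 : (C1 * (4 ^ 10 * (3 / 2)) ^ r) * (C0 : ℝ) ^ r =
          C1 * ((C0 : ℝ) * (4 ^ 10 * (3 / 2))) ^ r := by
        rw [mul_assoc, ← mul_pow, mul_comm (4 ^ 10 * (3 / 2) : ℝ)]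
      rw [b1, K3]
      apply mul_le_mul_of_nonneg_left _ hC1pos.le
      apply pow_le_pow_left₀ (by positivity)
      apply mul_le_mul_of_nonneg_left _ (by positivity)
      norm_num
    have h7 : 1 / 2 ≤ C1 * K3 ^ r * |Λ| := by
      refine h5.trans ?_
      gcongr
    have h8 : 1 / 2 * (C1 * K3 ^ r)⁻¹ ≤ |Λ| := by
      rw [← div_eq_mul_inv, div_le_iff₀ (by positivity)]
      linarith
    refine le_trans ?_ h8
    have b2 : 1 / (216 * C1) * (K3 ^ r)⁻¹ = 1 / 216 * (C1 * K3 ^ r)⁻¹ := by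
      rw [one_div, mul_inv, one_div, mul_inv, mul_assoc]
    rw [b2]
    apply mul_le_mul_of_nonneg_right _ (by positivity)
    norm_num

/-- A polynomial lower bound for linear forms in `log 2` and `log 3`. -/
theorem linear_form : ∃ A c : ℝ, 0 < A ∧ 0 < c ∧ ∀ (a b : ℤ) (H : ℝ), 1 ≤ H →
    |(a : ℝ)| ≤ H → |(b : ℝ)| ≤ H → (a ≠ 0 ∨ b ≠ 0) →
      c * H ^ (-A) ≤ |a * log 2 + b * log 3| := by
  have hC1 := one_le_C1
  have hC1pos : 0 < C1 := by linarith
  have hK3 := one_lt_K3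
  set A : ℝ := logb 2 K3 with hA
  have hApos : 0 < A := logb_pos (by norm_num) hK3
  refine ⟨A, 1 / (216 * C1) * (2 ^ 11 * (5 * C1)) ^ (-A), hApos, by positivity, ?_⟩
  intro a b H hH ha hb hab
  have hne : a + 2 * b ≠ 0 ∨ 2 * a + 3 * b ≠ 0 := by omega
  have hu1 : |((a + 2 * b : ℤ) : ℝ)| ≤ 5 * H := by
    push_cast
    have := abs_add_le (a : ℝ) (2 * b)
    rw [abs_mul, abs_two] at this
    linarith
  have hu2 : |((2 * a + 3 * b : ℤ) : ℝ)| ≤ 5 * H := by
    push_cast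
    have := abs_add_le (2 * a : ℝ) (3 * b)
    rw [abs_mul, abs_mul, abs_two, abs_of_pos (show (0 : ℝ) < 3 by norm_num)] at this
    linarith
  set L : ℝ := logb 2 (5 * C1 * H) with hL
  have hpos : 1 ≤ 5 * C1 * H := by nlinarith
  have hL0 : 0 ≤ L := logb_nonneg (by norm_num) hpos
  set r : ℕ := ⌈L⌉₊ + 10 with hr
  have h2L : (2 : ℝ) ^ L = 5 * C1 * H := by
    rw [hL, rpow_logb (by norm_num) (by norm_num) (by linarith)]
  have hr1 : C1 * (5 * H) ≤ 2 ^ r := by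
    have : L ≤ r := by
      rw [hr]; push_cast
      have := Nat.le_ceil L
      linarith
    calc C1 * (5 * H) = (2 : ℝ) ^ L := by rw [h2L]; ring
      _ ≤ (2 : ℝ) ^ (r : ℝ) := rpow_le_rpow_of_exponent_le (by norm_num) this
      _ = 2 ^ r := rpow_natCast _ _
  have hr2 : (2 : ℝ) ^ r ≤ 2 ^ 11 * (5 * C1) * H := by
    have : (r : ℝ) ≤ L + 11 := by
      rw [hr]; push_cast
      have := (Nat.ceil_lt_add_one hL0).le
      linarith
    calc (2 : ℝ) ^ r = (2 : ℝ) ^ (r : ℝ) := (rpow_natCast _ _).symm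
      _ ≤ (2 : ℝ) ^ (L + 11) := rpow_le_rpow_of_exponent_le (by norm_num) this
      _ = _ := by
          rw [rpow_add (by norm_num), h2L]
          norm_num
          ring
  have hmain := form_lower hne hu1 hu2 (r := r) (by omega) hr1
  have e : ((a + 2 * b : ℤ) : ℝ) * log (9 / 8) + ((2 * a + 3 * b : ℤ) : ℝ) * log (4 / 3) =
      a * log 2 + b * log 3 := by
    have e1 : log (9 / 8 : ℝ) = 2 * log 3 - 3 * log 2 := by
      rw [log_div (by norm_num) (by norm_num), show (9 : ℝ) = 3 ^ 2 by norm_num,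
        show (8 : ℝ) = 2 ^ 3 by norm_num, log_pow, log_pow]
      norm_num
    have e2 : log (4 / 3 : ℝ) = 2 * log 2 - log 3 := by
      rw [log_div (by norm_num) (by norm_num), show (4 : ℝ) = 2 ^ 2 by norm_num, log_pow]
      norm_num
    rw [e1, e2]
    push_cast
    ring
  rw [e] at hmain
  refine le_trans ?_ hmain
  rw [mul_assoc]
  gcongr
  rw [← mul_rpow (by positivity) (by positivity)]
  have hK : K3 ^ r = ((2 : ℝ) ^ r) ^ A := by
    rw [hA, ← rpow_natCast (2 : ℝ), ← rpow_mul (by norm_num), mul_comm (r : ℝ), rpow_mul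
      (by norm_num), rpow_logb (by norm_num) (by norm_num) (by linarith), rpow_natCast]
  rw [hK, ← rpow_neg (by positivity)]
  exact rpow_le_rpow_of_nonpos (by positivity) hr2 (by linarith)

end Pool.Agent.Lib.MP_e43fce_nt.Gaps
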