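import Pool.Agent.Lib.MP_e43fce_nt.Gaps.Hit

/-!
Many Collatz ancestors of `1` in short intervals.
-/

set_option autoImplicit false

open Real

namespace Pool.Agent.Lib.MP_e43fce_nt.Gaps

/-- From `n = 2 ^ a * u` reaching `1`, the number `3 * u + 1` reaches `1`. -/
lemma reach_of_reach {a u j : ℕ} (hu : u % 2 = 1) (h : Col^[j] (2 ^ a * u) = 1) :
    ∃ i : ℕ, i ≤ j + 2 ∧ Col^[i] (3 * u + 1) = 1 := by
  by_cases h1 : u = 1
  · subst h1
    exact ⟨2, by omega, by decide⟩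
  · have hit : ∀ i ≤ a, Col^[i] (2 ^ a * u) = 2 ^ (a - i) * u := by
      intro i hi
      have e : 2 ^ a * u = 2 ^ i * (2 ^ (a - i) * u) := by
        rw [← mul_assoc, ← pow_add]; congr 2; omega
      rw [e, iterate_two_pow]
    have hj : a + 1 ≤ j := by
      by_contra hcon
      push Not at hcon
      rw [hit j (by omega)] at h
      have : u ∣ 1 := ⟨2 ^ (a - j), by rw [← h]; ring⟩
      exact h1 (Nat.dvd_one.1 this)
    obtain ⟨i, rfl⟩ := Nat.exists_eq_add_of_le hj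
    refine ⟨i, by omega, ?_⟩
    rw [show a + 1 + i = i + 1 + a by ring, Function.iterate_add_apply, hit a le_rfl,
      Function.iterate_succ_apply] at h
    have : Col (2 ^ (a - a) * u) = 3 * u + 1 := by
      rw [Nat.sub_self, pow_zero, one_mul, Col, if_neg (by omega)]
    rwa [this] at h

open scoped Classical in
/-- The set of numbers in `[lo, hi]` reaching `1` in at most `t` steps. -/
noncomputable def reachSet (lo hi : ℕ) (t : ℝ) : Finset ℕ :=
  (Finset.Icc lo hi).filter (fun n => ∃ j : ℕ, (j : ℝ) ≤ t ∧ Col^[j] n = 1)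

lemma mem_reachSet {lo hi : ℕ} {t : ℝ} {n : ℕ} : n ∈ reachSet lo hi t ↔
    (lo ≤ n ∧ n ≤ hi) ∧ ∃ j : ℕ, (j : ℝ) ≤ t ∧ Col^[j] n = 1 := by
  classical
  unfold reachSet
  rw [Finset.mem_filter, Finset.mem_Icc]

/-- Transfer from long to short intervals. -/
theorem transfer {c : ℝ} {ε : ℝ} {x : ℝ} (hx : 0 < x) (hL : 1 ≤ log x)
    (hhit : ∀ m : ℕ, m % 3 ≠ 0 → (m : ℝ) ≤ x ^ (1 - ε) →
      ∃ n j : ℕ, x ≤ n ∧ (n : ℝ) ≤ x + x / (log x) ^ c ∧ (j : ℝ) ≤ 20 * log x ∧ n % 2 = 1 ∧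
        Col^[j] n = m) (hε : 0 ≤ ε) {y C₀ : ℝ} (hC₀ : 0 ≤ C₀) (hy1 : 1 ≤ y)
    (hy : 4 * y ≤ x ^ (1 - ε)) :
    ((reachSet 1 ⌊y⌋₊ (C₀ * log y)).card : ℝ) ≤
      (reachSet ⌈x⌉₊ ⌊x + x / (log x) ^ c⌋₊ ((C₀ + 22) * log x)).card * (63 * (log x) ^ 2) := by
  set L := log x with hLdef
  have hyx : y ≤ x := by
    have h1 : x ^ (1 - ε) ≤ x := by
      have hx1 : 1 ≤ x := by
        by_contra hcon
        push Not at hcon
        have := log_nonpos hx.le hcon.le
        linarith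
      calc x ^ (1 - ε) ≤ x ^ (1 : ℝ) := rpow_le_rpow_of_exponent_le hx1 (by linarith)
        _ = x := rpow_one x
    linarith
  have hlogy : log y ≤ L := log_le_log (by linarith) hyx
  have hlogy0 : 0 ≤ log y := log_nonneg hy1
  have hlog2 : 1 / 2 < log 2 := by
    have := log_two_gt_d9; linarith
  set T := reachSet ⌈x⌉₊ ⌊x + x / L ^ c⌋₊ ((C₀ + 22) * L) with hT
  have hsub : reachSet 1 ⌊y⌋₊ (C₀ * log y) ⊆
      ((T ×ˢ Finset.range (⌊20 * L⌋₊ + 1)) ×ˢ Finset.range (⌊2 * L⌋₊ + 1)).image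
        (fun q => 2 ^ q.2 * ((Col^[q.1.2] q.1.1 - 1) / 3)) := by
    intro n hn
    rw [mem_reachSet] at hn
    obtain ⟨⟨hn1, hn2⟩, j, hj, hj1⟩ := hn
    obtain ⟨a, u, hu, hau⟩ := Nat.exists_eq_two_pow_mul_odd (n := n) (by omega)
    have hu2 : u % 2 = 1 := Nat.odd_iff.1 hu
    rw [hau] at hj1
    obtain ⟨i, hi, hi1⟩ := reach_of_reach hu2 hj1
    have hny : (n : ℝ) ≤ y := (Nat.le_floor_iff (by linarith)).1 hn2
    have hun : u ≤ n := by
      rw [hau]; exact Nat.le_mul_of_pos_left _ (by positivity)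
    have huy : (u : ℝ) ≤ y := le_trans (by exact_mod_cast hun) hny
    obtain ⟨n', j', h1, h2, h3, h4, h5⟩ := hhit (3 * u + 1) (by omega) (by
      push_cast; linarith)
    rw [Finset.mem_image]
    refine ⟨((n', j'), a), ?_, ?_⟩
    · rw [Finset.mem_product, Finset.mem_product, Finset.mem_range, Finset.mem_range]
      refine ⟨⟨?_, ?_⟩, ?_⟩
      · rw [hT, mem_reachSet]
        refine ⟨⟨Nat.ceil_le.2 h1, Nat.le_floor h2⟩, i + j', ?_, ?_⟩
        · push_cast
          have : (i : ℝ) ≤ j + 2 := by exact_mod_cast hi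
          have h6 : C₀ * log y ≤ C₀ * L := by gcongr
          calc (i : ℝ) + j' ≤ (C₀ * L + 2 * L) + 20 * L := by linarith
            _ = (C₀ + 22) * L := by ring
        · change Col^[i + j'] n' = 1
          rw [Function.iterate_add_apply, h5, hi1]
      · exact Nat.lt_succ_of_le (Nat.le_floor h3)
      · apply Nat.lt_succ_of_le
        apply Nat.le_floor
        have h7 : ((2 : ℝ) ^ a) ≤ y := by
          have : 2 ^ a ≤ n := by
            rw [hau]; exact Nat.le_mul_of_pos_right _ (by omega)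
          exact le_trans (by exact_mod_cast this) hny
        have h8 := log_le_log (by positivity) h7
        rw [log_pow] at h8
        have h9 : (0 : ℝ) ≤ a := by positivity
        have h10 : (a : ℝ) * (1 / 2) ≤ a * log 2 := by gcongr
        linarith
    · change 2 ^ a * ((Col^[j'] n' - 1) / 3) = n
      rw [h5, hau]
      congr 1
      omega
  have hcard := Finset.card_le_card hsub
  have h1 := hcard.trans Finset.card_image_le
  rw [Finset.card_product, Finset.card_product, Finset.card_range, Finset.card_range] at h1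
  have h2 : ((reachSet 1 ⌊y⌋₊ (C₀ * log y)).card : ℝ) ≤
      (T.card : ℝ) * ((⌊20 * L⌋₊ : ℝ) + 1) * ((⌊2 * L⌋₊ : ℝ) + 1) := by exact_mod_cast h1
  refine h2.trans ?_
  have h3 : (⌊20 * L⌋₊ : ℝ) + 1 ≤ 21 * L := by
    have := Nat.floor_le (show 0 ≤ 20 * L by linarith)
    linarith
  have h4 : (⌊2 * L⌋₊ : ℝ) + 1 ≤ 3 * L := by
    have := Nat.floor_le (show 0 ≤ 2 * L by linarith)
    linarith
  calc (T.card : ℝ) * ((⌊20 * L⌋₊ : ℝ) + 1) * ((⌊2 * L⌋₊ : ℝ) + 1) ≤
        (T.card : ℝ) * (21 * L) * (3 * L) := by gcongr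
    _ = _ := by ring

/-- Short intervals contain almost as many numbers reaching `1` in `O(log x)` steps as the power
saving count for long intervals predicts. -/
theorem short_intervals : ∃ c : ℝ, 0 < c ∧ ∀ γ γ' C₀ X₀ : ℝ, 0 < γ' → γ' < γ → 0 ≤ C₀ →
    (∀ y : ℝ, X₀ ≤ y → y ^ γ ≤ (reachSet 1 ⌊y⌋₊ (C₀ * log y)).card) →
    ∃ X : ℝ, ∀ x : ℝ, X ≤ x → x ^ γ' ≤
      (reachSet ⌈x⌉₊ ⌊x + x / (log x) ^ c⌋₊ ((C₀ + 22) * log x)).card := by
  obtain ⟨c, hc, hh⟩ := hit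
  refine ⟨c, hc, fun γ γ' C₀ X₀ hγ' hγ hC₀ hcount => ?_⟩
  have hγ0 : 0 < γ := hγ'.trans hγ
  set ε : ℝ := (γ - γ') / (2 * γ) with hε
  have hε0 : 0 < ε := by rw [hε]; apply div_pos <;> linarith
  have hε1 : ε ≤ 1 := by
    rw [hε, div_le_one (by positivity)]; linarith
  have hεγ : (1 - ε) * γ = γ' + (γ - γ') / 2 := by
    rw [hε]; field_simp; ring
  have hε1' : 0 < 1 - ε := by
    have : 0 < (1 - ε) * γ := by rw [hεγ]; linarith
    by_contra hcon
    push Not at hcon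
    have := mul_nonpos_of_nonpos_of_nonneg hcon hγ0.le
    linarith
  obtain ⟨X, hX⟩ := hh ε hε0 hε1
  -- large x
  set κ : ℝ := (γ - γ') / 2 with hκ
  have hκ0 : 0 < κ := by rw [hκ]; linarith
  have hev1 : ∀ᶠ x : ℝ in Filter.atTop, 63 * 4 ^ γ * (log x) ^ 2 ≤ x ^ κ := by
    have h1 : (fun x : ℝ => (log x) ^ 2) =o[Filter.atTop] fun x => x ^ κ := by
      have := isLittleO_log_rpow_rpow_atTop (r := 2) (s := κ) hκ0
      simpa using this
    have h2 := h1.bound (show 0 < (63 * 4 ^ γ : ℝ)⁻¹ by positivity)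
    filter_upwards [h2, Filter.eventually_ge_atTop 1] with x hx hx1
    rw [norm_of_nonneg (by positivity), norm_of_nonneg (by positivity)] at hx
    rw [inv_mul_eq_div, le_div_iff₀ (by positivity)] at hx
    linarith
  have hev2 : ∀ᶠ x : ℝ in Filter.atTop, 4 * max X₀ 1 ≤ x ^ (1 - ε) :=
    (tendsto_rpow_atTop hε1').eventually_ge_atTop _
  obtain ⟨X', hX'⟩ := Filter.eventually_atTop.1
    ((hev1.and hev2).and ((Filter.eventually_ge_atTop X).and (Filter.eventually_ge_atTop 1)))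
  refine ⟨X', fun x hx => ?_⟩
  obtain ⟨⟨h1, h2⟩, h3, h4⟩ := hX' x hx
  obtain ⟨hL, hhit⟩ := hX x h3
  have hx0 : 0 < x := by linarith
  set y : ℝ := x ^ (1 - ε) / 4 with hy
  have hy1 : max X₀ 1 ≤ y := by rw [hy]; linarith
  have h5 := transfer (c := c) hx0 hL hhit hε0.le hC₀ (y := y) (le_trans (le_max_right _ _) hy1)
    (by rw [hy]; linarith)
  have h6 := hcount y (le_trans (le_max_left _ _) hy1)
  have h7 := h6.trans h5
  have e : y ^ γ = x ^ γ' * x ^ κ / 4 ^ γ := by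
    rw [hy, div_rpow (by positivity) (by norm_num), ← rpow_mul hx0.le, hεγ, rpow_add hx0]
  rw [e, div_le_iff₀ (by positivity)] at h7
  have hL2 : 0 < (log x) ^ 2 := by positivity
  have h8 : x ^ γ' * (63 * 4 ^ γ * (log x) ^ 2) ≤
      (reachSet ⌈x⌉₊ ⌊x + x / (log x) ^ c⌋₊ ((C₀ + 22) * log x)).card *
        (63 * 4 ^ γ * (log x) ^ 2) := by
    calc _ ≤ x ^ γ' * x ^ κ := by gcongr
      _ ≤ _ := h7
      _ = _ := by ring
  exact le_of_mul_le_mul_right h8 (by positivity)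

end Pool.Agent.Lib.MP_e43fce_nt.Gaps
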