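import Pool.Agent.Lib.MP_e43fce_nt.Gaps.Irr4

/-!
Dispersion of the numbers `b log 2 - k log 3`.
-/

set_option autoImplicit false

open Real

namespace Pool.Agent.Lib.MP_e43fce_nt.Gaps

theorem dispersion : ∃ B C : ℝ, 0 < B ∧ 0 < C ∧ ∀ δ : ℝ, 0 < δ → δ ≤ 1 → ∀ T : ℝ,
    ∃ (k : ℕ) (b : ℤ), (k : ℝ) ≤ C * δ ^ (-B) ∧ T ≤ b * log 2 - k * log 3 ∧
      b * log 2 - k * log 3 ≤ T + δ := by
  obtain ⟨A, c, hA, hc, hlin⟩ := linear_form
  refine ⟨A + 1, 6 ^ (A + 1) * (1 / c + 1), by linarith, by positivity, ?_⟩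
  intro δ hδ hδ1 T
  have hlog2 : 0 < log 2 := log_pos (by norm_num)
  have hlog2' : log 2 < 1 := by
    have := log_two_lt_d9; linarith
  have hlog3 : 0 < log 3 := log_pos (by norm_num)
  have hlog3' : log 3 < 2 * log 2 := by
    have : log 3 < log (2 ^ 2) := log_lt_log (by norm_num) (by norm_num)
    rw [log_pow] at this
    exact_mod_cast this
  set Q : ℕ := ⌈1 / δ⌉₊ with hQ
  have hQ1 : 1 / δ ≤ Q := Nat.le_ceil _
  have hQpos : 0 < Q := Nat.ceil_pos.2 (by positivity)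
  have hQ2 : (Q : ℝ) ≤ 2 / δ := by
    have h1 := (Nat.ceil_lt_add_one (show 0 ≤ 1 / δ by positivity)).le
    have h2 : 1 ≤ 1 / δ := by rw [le_div_iff₀ hδ]; linarith
    calc (Q : ℝ) ≤ 1 / δ + 1 := h1
      _ ≤ 1 / δ + 1 / δ := by linarith
      _ = 2 / δ := by ring
  have hQR : (1 : ℝ) ≤ Q := by exact_mod_cast hQpos
  obtain ⟨p, q, hq0, hqQ, hpq⟩ := Real.exists_int_int_abs_mul_sub_le (log 3 / log 2) hQpos
  have hqR : (0 : ℝ) < q := by exact_mod_cast hq0
  have hqQR : (q : ℝ) ≤ Q := by exact_mod_cast hqQ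
  set η : ℝ := p * log 2 - q * log 3 with hη
  have hηeq : |η| = |(q : ℝ) * (log 3 / log 2) - p| * log 2 := by
    rw [← abs_of_pos hlog2, ← abs_mul, abs_of_pos hlog2, ← abs_neg]
    congr 1
    rw [hη]
    field_simp
    ring
  have hηle : |η| ≤ δ := by
    rw [hηeq]
    calc |(q : ℝ) * (log 3 / log 2) - p| * log 2 ≤ 1 / (Q + 1) * 1 := by gcongr
      _ ≤ δ := by
          rw [mul_one, div_le_iff₀ (by positivity)]
          have : 1 ≤ δ * Q := by
            rw [div_le_iff₀ hδ] at hQ1; linarith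
          nlinarith
  have hηge : c * (3 * Q : ℝ) ^ (-A) ≤ |η| := by
    have h := hlin p (-q) (3 * Q) (by linarith) ?_ ?_ (Or.inr (by omega))
    · refine h.trans (le_of_eq ?_)
      rw [hη]; push_cast; congr 1; ring
    · have h1 : |(p : ℝ)| ≤ |(q : ℝ) * (log 3 / log 2) - p| + |(q : ℝ) * (log 3 / log 2)| := by
        have := abs_sub_abs_le_abs_sub (p : ℝ) ((q : ℝ) * (log 3 / log 2))
        rw [abs_sub_comm (p : ℝ)] at this
        linarith
      have h2 : |(q : ℝ) * (log 3 / log 2)| ≤ Q * 2 := by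
        rw [abs_of_nonneg (by positivity)]
        have : log 3 / log 2 ≤ 2 := by rw [div_le_iff₀ hlog2]; linarith
        gcongr
      have h3 : (1 : ℝ) / (Q + 1) ≤ 1 := by
        rw [div_le_iff₀ (by positivity)]; linarith
      linarith
    · rw [Int.cast_neg, abs_neg, abs_of_pos hqR]; linarith
  have hηpos : 0 < |η| := lt_of_lt_of_le (by positivity) hηge
  have hbound : ∀ t : ℕ, (t : ℝ) ≤ log 2 / |η| + 1 →
      ((t * q.toNat : ℕ) : ℝ) ≤ 6 ^ (A + 1) * (1 / c + 1) * δ ^ (-(A + 1)) := by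
    intro t ht
    have hqn : (q.toNat : ℝ) = q := by
      have : (q.toNat : ℤ) = q := Int.toNat_of_nonneg hq0.le
      exact_mod_cast this
    have h3Q : (0 : ℝ) < 3 * Q := by positivity
    have h1 : log 2 / |η| ≤ (1 / c) * (3 * Q : ℝ) ^ A := by
      rw [div_le_iff₀ hηpos]
      calc log 2 ≤ 1 := hlog2'.le
        _ = 1 / c * (3 * Q : ℝ) ^ A * (c * (3 * Q : ℝ) ^ (-A)) := by
            rw [rpow_neg h3Q.le]; field_simp
        _ ≤ _ := by gcongr
    have h2 : (1 : ℝ) ≤ (3 * Q : ℝ) ^ A := one_le_rpow (by linarith) hA.le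
    push_cast
    rw [hqn]
    calc (t : ℝ) * q ≤ ((1 / c + 1) * (3 * Q : ℝ) ^ A) * (3 * Q) := by
          apply mul_le_mul _ (by linarith) hqR.le (by positivity)
          calc (t : ℝ) ≤ log 2 / |η| + 1 := ht
            _ ≤ 1 / c * (3 * Q : ℝ) ^ A + 1 * (3 * Q : ℝ) ^ A := by linarith
            _ = _ := by ring
      _ = (1 / c + 1) * (3 * Q : ℝ) ^ (A + 1) := by
          rw [rpow_add h3Q, rpow_one]; ring
      _ ≤ (1 / c + 1) * (6 / δ) ^ (A + 1) := by
          gcongr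
          calc (3 * Q : ℝ) ≤ 3 * (2 / δ) := by linarith
            _ = 6 / δ := by ring
      _ = _ := by
          rw [div_rpow (by norm_num) hδ.le, rpow_neg hδ.le]; ring
  have hval : ∀ (t : ℕ) (b₀ : ℤ), ((b₀ + t * p : ℤ) : ℝ) * log 2 -
      ((t * q.toNat : ℕ) : ℝ) * log 3 = b₀ * log 2 + t * η := by
    intro t b₀
    have hqn : (q.toNat : ℝ) = q := by
      have : (q.toNat : ℤ) = q := Int.toNat_of_nonneg hq0.le
      exact_mod_cast this
    push_cast
    rw [hqn, hη]; ring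
  rcases lt_or_gt_of_ne (abs_pos.1 hηpos) with hneg | hpos
  · have habs : |η| = -η := abs_of_neg hneg
    set b₀ : ℤ := ⌈T / log 2⌉ with hb₀
    have h1 : T ≤ b₀ * log 2 := by
      have := Int.le_ceil (T / log 2)
      rwa [div_le_iff₀ hlog2] at this
    have h2 : b₀ * log 2 ≤ T + log 2 := by
      have := (Int.ceil_lt_add_one (T / log 2)).le
      calc (b₀ : ℝ) * log 2 ≤ (T / log 2 + 1) * log 2 := by gcongr
        _ = T + log 2 := by field_simp
    set t : ℕ := ⌊(b₀ * log 2 - T) / |η|⌋₊ with ht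
    have h3 : (t : ℝ) ≤ (b₀ * log 2 - T) / |η| := Nat.floor_le (by
      apply div_nonneg (by linarith) hηpos.le)
    have h4 : (b₀ * log 2 - T) / |η| < t + 1 := Nat.lt_floor_add_one _
    rw [le_div_iff₀ hηpos] at h3
    rw [div_lt_iff₀ hηpos] at h4
    refine ⟨t * q.toNat, b₀ + t * p, hbound t ?_, ?_, ?_⟩
    · have : (t : ℝ) ≤ log 2 / |η| := by
        rw [le_div_iff₀ hηpos]; linarith
      linarith
    · rw [hval]; rw [habs] at h3; linarith
    · rw [hval]; rw [habs] at h4 hηle; linarith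
  · have habs : |η| = η := abs_of_pos hpos
    set b₀ : ℤ := ⌊T / log 2⌋ with hb₀
    have h1 : b₀ * log 2 ≤ T := by
      have := Int.floor_le (T / log 2)
      rwa [le_div_iff₀ hlog2] at this
    have h2 : T ≤ b₀ * log 2 + log 2 := by
      have := (Int.lt_floor_add_one (T / log 2)).le
      calc T = T / log 2 * log 2 := by field_simp
        _ ≤ (b₀ + 1) * log 2 := by gcongr
        _ = _ := by ring
    set t : ℕ := ⌈(T - b₀ * log 2) / |η|⌉₊ with ht
    have hnn : 0 ≤ (T - b₀ * log 2) / |η| := div_nonneg (by linarith) hηpos.le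
    have h3 : (T - b₀ * log 2) / |η| ≤ t := Nat.le_ceil _
    have h4 : (t : ℝ) < (T - b₀ * log 2) / |η| + 1 := Nat.ceil_lt_add_one hnn
    have h5 : (T - b₀ * log 2) / |η| ≤ log 2 / |η| := by gcongr; linarith
    refine ⟨t * q.toNat, b₀ + t * p, hbound t (by linarith), ?_, ?_⟩
    · rw [hval]
      rw [div_le_iff₀ hηpos, habs] at h3; linarith
    · rw [hval]
      have h6 : t * |η| < (T - b₀ * log 2) + |η| := by
        have := mul_lt_mul_of_pos_right h4 hηpos
        rw [add_mul, div_mul_cancel₀ _ hηpos.ne', one_mul] at this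
        exact this
      rw [habs] at h6 hηle; linarith

end Pool.Agent.Lib.MP_e43fce_nt.Gaps
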