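import Pool.Agent.Lib.MP_e43fce_nt.Gaps.Count

/-!
Final form of the short interval theorem.
-/

set_option autoImplicit false

open Real Filter

namespace Pool.Agent.Lib.MP_e43fce_nt.Gaps

theorem final_of_count {γ₁ γ₂ : ℝ} (h0 : 0 < γ₂) (h12 : γ₂ < γ₁)
    (h : ∃ C : ℝ, ∃ X : ℕ, ∀ x : ℕ, X ≤ x → (x : ℝ) ^ γ₁ ≤
      ({n : ℕ | (1 ≤ n ∧ n ≤ x) ∧ ∃ k : ℕ, k ≤ n ∧ (k : ℝ) ≤ C * log n ∧
        Col^[k] n = 1}.ncard : ℝ)) :
    ∃ c C X : ℝ, 0 < c ∧ ∀ x : ℝ, X ≤ x → x ^ γ₂ ≤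
      ({n : ℕ | (x ≤ n ∧ (n : ℝ) ≤ x + x / (log x) ^ c) ∧ ∃ k : ℕ, k ≤ n ∧ (k : ℝ) ≤ C * log n ∧
        Col^[k] n = 1}.ncard : ℝ) := by
  obtain ⟨C, X, hX⟩ := h
  obtain ⟨c, hc, hmain⟩ := short_intervals
  set C₀ : ℝ := max C 0 with hC₀
  have hC₀0 : 0 ≤ C₀ := le_max_right _ _
  set γm : ℝ := (γ₁ + γ₂) / 2 with hγm
  have hγm1 : γm < γ₁ := by rw [hγm]; linarith
  have hγm2 : γ₂ < γm := by rw [hγm]; linarith
  have hγ1 : 0 < γ₁ := h0.trans h12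
  -- the count for real y
  have hev : ∀ᶠ y : ℝ in atTop, y ^ γm ≤ (y / 2) ^ γ₁ := by
    have ht : Tendsto (fun y : ℝ => y ^ (γ₁ - γm)) atTop atTop :=
      tendsto_rpow_atTop (by linarith)
    filter_upwards [ht.eventually_ge_atTop (2 ^ γ₁), eventually_gt_atTop 0] with y hy hy0
    rw [div_rpow hy0.le (by norm_num), le_div_iff₀ (by positivity)]
    calc y ^ γm * 2 ^ γ₁ ≤ y ^ γm * y ^ (γ₁ - γm) := by gcongr
      _ = y ^ γ₁ := by rw [← rpow_add hy0]; congr 1; ring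
  obtain ⟨Y, hY⟩ := eventually_atTop.1 (hev.and ((eventually_ge_atTop (2 : ℝ)).and
    (eventually_ge_atTop ((X : ℝ) + 1))))
  have hcount : ∀ y : ℝ, Y ≤ y → y ^ γm ≤ (reachSet 1 ⌊y⌋₊ (C₀ * log y)).card := by
    intro y hy
    obtain ⟨h1, h2, h3⟩ := hY y hy
    have hfl : (y - 1 : ℝ) ≤ ⌊y⌋₊ := by
      have := Nat.lt_floor_add_one y; linarith
    have hfl2 : (y / 2 : ℝ) ≤ ⌊y⌋₊ := by linarith
    have hXy : X ≤ ⌊y⌋₊ := Nat.le_floor (by linarith)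
    refine h1.trans ?_
    calc (y / 2) ^ γ₁ ≤ ((⌊y⌋₊ : ℕ) : ℝ) ^ γ₁ := by gcongr
      _ ≤ _ := hX _ hXy
      _ ≤ _ := by
        rw [← Set.ncard_coe_finset]
        apply Nat.cast_le.2
        apply Set.ncard_le_ncard _ (Finset.finite_toSet _)
        rintro n ⟨⟨hn1, hn2⟩, k, hk1, hk2, hk3⟩
        rw [Finset.mem_coe, mem_reachSet]
        refine ⟨⟨hn1, hn2⟩, k, hk2.trans ?_, hk3⟩
        have hny : (n : ℝ) ≤ y := (Nat.le_floor_iff (by linarith)).1 hn2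
        have hn0 : (1 : ℝ) ≤ n := by exact_mod_cast hn1
        have h4 : log n ≤ log y := log_le_log (by linarith) hny
        have h5 : 0 ≤ log n := log_nonneg hn0
        calc C * log n ≤ C₀ * log n := by gcongr; exact le_max_left _ _
          _ ≤ C₀ * log y := by gcongr
  obtain ⟨X', hX'⟩ := hmain γm γ₂ C₀ Y h0 hγm2 hC₀0 hcount
  -- the bound k ≤ n
  have hev2 : ∀ᶠ x : ℝ in atTop, (C₀ + 22) * log x ≤ x := by
    have h1 := isLittleO_log_id_atTop.bound (show 0 < (C₀ + 22)⁻¹ by positivity)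
    filter_upwards [h1, eventually_ge_atTop (1 : ℝ)] with x hx hx1
    rw [norm_of_nonneg (log_nonneg hx1), id, norm_of_nonneg (by linarith)] at hx
    rw [inv_mul_eq_div, le_div_iff₀ (by positivity)] at hx
    linarith
  obtain ⟨X'', hX''⟩ := eventually_atTop.1 (hev2.and (eventually_ge_atTop (1 : ℝ)))
  refine ⟨c, C₀ + 22, max X' X'', hc, fun x hx => ?_⟩
  have h1 := hX' x ((le_max_left _ _).trans hx)
  obtain ⟨h2, h3⟩ := hX'' x ((le_max_right _ _).trans hx)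
  refine h1.trans ?_
  rw [← Set.ncard_coe_finset]
  apply Nat.cast_le.2
  apply Set.ncard_le_ncard
  · rintro n hn
    rw [Finset.mem_coe, mem_reachSet] at hn
    obtain ⟨⟨hn1, hn2⟩, k, hk1, hk2⟩ := hn
    have hxn : x ≤ n := Nat.ceil_le.1 hn1
    have hlog : log x ≤ log n := log_le_log (by linarith) hxn
    have hdiv : 0 ≤ x / log x ^ c := by
      apply div_nonneg (by linarith)
      exact rpow_nonneg (log_nonneg h3) _
    refine ⟨⟨hxn, (Nat.le_floor_iff (by linarith)).1 hn2⟩, k, ?_, ?_, hk2⟩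
    · have : (k : ℝ) ≤ n := by linarith
      exact_mod_cast this
    · refine hk1.trans ?_
      gcongr
  · apply Set.Finite.subset (Finset.finite_toSet (Finset.range (⌊x + x / (log x) ^ c⌋₊ + 1)))
    rintro n ⟨⟨_, hn2⟩, _⟩
    rw [Finset.mem_coe, Finset.mem_range]
    exact Nat.lt_succ_of_le (Nat.le_floor hn2)

end Pool.Agent.Lib.MP_e43fce_nt.Gaps
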