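import Mathlib

/-!
Backward Collatz paths with prescribed numbers of halvings and odd steps.
-/

set_option autoImplicit false

namespace Pool.Agent.Lib.MP_e43fce_nt.Gaps

/-- The Collatz function. -/
def Col (m : ℕ) : ℕ := if m % 2 = 0 then m / 2 else 3 * m + 1

lemma iterate_two_pow (e m : ℕ) : Col^[e] (2 ^ e * m) = m := by
  induction e with
  | zero => simp
  | succ e ih =>
    rw [Function.iterate_succ_apply]
    have : Col (2 ^ (e + 1) * m) = 2 ^ e * m := by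
      unfold Col
      have h1 : 2 ^ (e + 1) * m = 2 * (2 ^ e * m) := by ring
      rw [h1]
      simp
    rw [this, ih]

lemma iterate_odd {n m e : ℕ} (hn : n % 2 = 1) (h : 3 * n + 1 = 2 ^ e * m) :
    Col^[e + 1] n = m := by
  rw [Function.iterate_succ_apply]
  have : Col n = 2 ^ e * m := by
    unfold Col
    rw [if_neg (by omega), h]
  rw [this, iterate_two_pow]

lemma odd_of_eq {n m e : ℕ} (he : 1 ≤ e) (h : 3 * n + 1 = 2 ^ e * m) : n % 2 = 1 := by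
  obtain ⟨e, rfl⟩ := Nat.exists_eq_add_of_le he
  have h1 : 2 ^ (1 + e) * m = 2 * (2 ^ e * m) := by ring
  omega

lemma two_pow_mod_three (e : ℕ) : 2 ^ e % 3 = if e % 2 = 0 then 1 else 2 := by
  induction e with
  | zero => simp
  | succ e ih =>
    rw [pow_succ, Nat.mul_mod, ih]
    rcases Nat.mod_two_eq_zero_or_one e with h | h
    · rw [if_pos h, if_neg (by omega)]
    · rw [if_neg (by omega), if_pos (by omega)]

lemma parity {n v e : ℕ} (h : 3 * n + 1 = 2 ^ e * v) : e % 2 = (v % 3 + 1) % 2 := by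
  have h1 : (2 ^ e * v) % 3 = 1 := by omega
  rw [Nat.mul_mod, two_pow_mod_three] at h1
  have h2 : v % 3 < 3 := Nat.mod_lt _ (by norm_num)
  generalize v % 3 = w at *
  rcases Nat.mod_two_eq_zero_or_one e with h | h
  · rw [if_pos h] at h1
    interval_cases w <;> omega
  · rw [if_neg (by omega)] at h1
    interval_cases w <;> omega

lemma residue_exists : ∀ u < 9, u % 3 ≠ 0 → ∀ t < 3, ∃ i < 6, (2 ^ (i + 1) * u) % 9 = 1 + 3 * t := by
  decide

lemma step_exists {v : ℕ} (hv : v % 3 ≠ 0) {t : ℕ} (ht : t < 3) (g : ℕ) :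
    ∃ e n, g + 1 ≤ e ∧ e ≤ g + 6 ∧ 3 * n + 1 = 2 ^ e * v ∧ n % 3 = t := by
  have h1 : (2 ^ g * v % 9) % 3 ≠ 0 := by
    rw [Nat.mod_mod_of_dvd _ (by norm_num : 3 ∣ 9), Nat.mul_mod, two_pow_mod_three]
    split_ifs <;> omega
  obtain ⟨i, hi, h2⟩ := residue_exists (2 ^ g * v % 9) (Nat.mod_lt _ (by norm_num)) h1 t ht
  have h3 : (2 ^ (g + (i + 1)) * v) % 9 = 1 + 3 * t := by
    rw [← h2, pow_add, mul_right_comm, mul_comm, Nat.mul_mod, Nat.mul_mod (2 ^ (i + 1))]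
    simp
  refine ⟨g + (i + 1), 2 ^ (g + (i + 1)) * v / 3, by omega, by omega, ?_, ?_⟩
  · omega
  · omega

/-- Quantitative data of a backward path from `m` to `n` with `b` halvings and `i` odd steps. -/
structure Q (m g i b n : ℕ) : Prop where
  iter : Col^[b + i] n = m
  le : (3 : ℝ) ^ i * n ≤ 2 ^ b * m
  def_le : ((2 : ℝ) ^ b * m - 3 ^ i * n) * 2 ^ g * 4 ^ i ≤ 4 * (4 ^ i - 3 ^ i) * 2 ^ b
  hb : g + 2 * i ≤ b + 2

lemma Q.base {m g e n : ℕ} (he : g + 1 ≤ e) (h : 3 * n + 1 = 2 ^ e * m) : Q m g 1 e n := by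
  have hR : (3 : ℝ) * n + 1 = 2 ^ e * m := by exact_mod_cast h
  refine ⟨iterate_odd (odd_of_eq (by omega) h) h, ?_, ?_, by omega⟩
  · linarith
  · have h1 : (2 : ℝ) ^ g ≤ 2 ^ e := pow_le_pow_right₀ (by norm_num) (by omega)
    have e1 : ((2 : ℝ) ^ e * m - 3 ^ 1 * n) = 1 := by linarith
    rw [e1]
    norm_num
    linarith

lemma Q.step {m g i b n : ℕ} (hQ : Q m g i b n) {e n' : ℕ} (he : 2 ≤ e)
    (h : 3 * n' + 1 = 2 ^ e * n) : Q m g (i + 1) (b + e) n' := by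
  have hR : (3 : ℝ) * n' = 2 ^ e * n - 1 := by
    have : (3 : ℝ) * n' + 1 = 2 ^ e * n := by exact_mod_cast h
    linarith
  have h3 : (3 : ℝ) ^ (i + 1) * n' = 2 ^ e * (3 ^ i * n) - 3 ^ i := by
    rw [pow_succ, mul_assoc, hR]; ring
  refine ⟨?_, ?_, ?_, ?_⟩
  · have h1 : b + e + (i + 1) = (b + i) + (e + 1) := by ring
    rw [h1, Function.iterate_add_apply, iterate_odd (odd_of_eq (by omega) h) h]
    exact hQ.iter
  · rw [h3, pow_add]
    have := hQ.le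
    have h4 : (0 : ℝ) ≤ 3 ^ i := by positivity
    have h5 : (2 : ℝ) ^ e * (3 ^ i * n) ≤ 2 ^ e * (2 ^ b * m) := by gcongr
    linarith
  · have h4 := hQ.def_le
    have h5 : (2 : ℝ) ^ g * 4 ^ i ≤ 2 ^ (b + e) := by
      have : (4 : ℝ) ^ i = 2 ^ (2 * i) := by rw [pow_mul]; norm_num
      rw [this, ← pow_add]
      have := hQ.hb
      exact pow_le_pow_right₀ (by norm_num) (by omega)
    have e1 : ((2 : ℝ) ^ (b + e) * m - 3 ^ (i + 1) * n') * 2 ^ g * 4 ^ (i + 1) =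
        4 * 2 ^ e * (((2 : ℝ) ^ b * m - 3 ^ i * n) * 2 ^ g * 4 ^ i) +
        4 * 3 ^ i * (2 ^ g * 4 ^ i) := by
      rw [h3, pow_add, pow_succ]; ring
    rw [e1]
    calc _ ≤ (4 : ℝ) * 2 ^ e * (4 * (4 ^ i - 3 ^ i) * 2 ^ b) + 4 * 3 ^ i * 2 ^ (b + e) := by gcongr
      _ = 4 * (4 ^ (i + 1) - 3 ^ (i + 1)) * 2 ^ (b + e) := by
          rw [pow_add, pow_succ, pow_succ]; ring
  · have := hQ.hb; omega

lemma path_aux {m : ℕ} (hm : m % 3 ≠ 0) (g : ℕ) (i : ℕ) :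
    ∃ b n, Q m g (i + 1) b n ∧ n % 3 = 1 ∧ b % 2 = (m % 3 + 1) % 2 ∧ b ≤ g + 6 * (i + 1) := by
  induction i with
  | zero =>
    obtain ⟨e, n, h1, h2, h3, h4⟩ := step_exists hm (t := 1) (by norm_num) g
    exact ⟨e, n, Q.base h1 h3, h4, parity h3, by omega⟩
  | succ i ih =>
    obtain ⟨b, n, hQ, hn, hb, hb2⟩ := ih
    obtain ⟨e, n', h1, h2, h3, h4⟩ := step_exists (v := n) (by omega) (t := 1) (by norm_num) 0
    have hpar := parity h3
    rw [hn] at hpar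
    exact ⟨b + e, n', hQ.step (by omega) h3, h4, by omega, by omega⟩

/-- Backward paths with prescribed numbers of halvings and odd steps. -/
theorem path {m : ℕ} (hm : m % 3 ≠ 0) (g : ℕ) {k B : ℕ} (hk : 3 ≤ k) (hB : g + 6 * k ≤ B) :
    ∃ n : ℕ, n % 2 = 1 ∧ Col^[B + k] n = m ∧ (3 : ℝ) ^ k * n ≤ 2 ^ B * m ∧
      (2 : ℝ) ^ B * m - 4 * 2 ^ B / 2 ^ g ≤ 3 ^ k * n := by
  obtain ⟨j, rfl⟩ := Nat.exists_eq_add_of_le hk
  obtain ⟨b, n, hQ, hn, hb, hb2⟩ := path_aux hm g j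
  -- the adjusting step
  obtain ⟨t, ht3, ht0, ht⟩ : ∃ t < 3, t ≠ 0 ∧ (B + b) % 2 = (t + 1) % 2 := by
    rcases Nat.mod_two_eq_zero_or_one (B + b) with h | h
    · exact ⟨1, by norm_num, by norm_num, by omega⟩
    · exact ⟨2, by norm_num, by norm_num, by omega⟩
  obtain ⟨e, n', h1, h2, h3, h4⟩ := step_exists (v := n) (by omega) (t := t) ht3 0
  have hpar := parity h3
  rw [hn] at hpar
  have hQ' := hQ.step (e := e) (n' := n') (by omega) h3
  -- the last step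
  obtain ⟨E, hE⟩ := Nat.exists_eq_add_of_le (show b + e ≤ B by omega)
  have hE2 : 2 ≤ E := by omega
  have h5 : (2 ^ E * n') % 3 = 1 := by
    rw [Nat.mul_mod, two_pow_mod_three, h4]
    have : E % 2 = (t + 1) % 2 := by omega
    split_ifs with hh <;> interval_cases t <;> omega
  have h6 : 3 * (2 ^ E * n' / 3) + 1 = 2 ^ E * n' := by omega
  have hQ'' := hQ'.step hE2 h6
  rw [← hE] at hQ''
  have e1 : j + 1 + 1 + 1 = 3 + j := by ring
  rw [e1] at hQ''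
  refine ⟨2 ^ E * n' / 3, odd_of_eq (by omega) h6, hQ''.iter, hQ''.le, ?_⟩
  have h7 := hQ''.def_le
  have h8 : (0 : ℝ) < 4 ^ (3 + j) := by positivity
  have h9 : (0 : ℝ) < 2 ^ g := by positivity
  have h10 : (((2 : ℝ) ^ B * m - 3 ^ (3 + j) * ((2 ^ E * n' / 3 : ℕ) : ℝ)) * 2 ^ g) * 4 ^ (3 + j) ≤
      (4 * 2 ^ B) * 4 ^ (3 + j) := by
    refine h7.trans ?_
    have : (0 : ℝ) ≤ 3 ^ (3 + j) * 2 ^ B := by positivity
    nlinarith
  have h11 := le_of_mul_le_mul_right h10 h8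
  rw [← le_div_iff₀ h9] at h11
  linarith

end Pool.Agent.Lib.MP_e43fce_nt.Gaps
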