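import Pool.Agent.Lib.MP_e43fce_nt.Gaps.Disp
import Pool.Agent.Lib.MP_e43fce_nt.Gaps.Path

/-!
Every short interval contains a Collatz ancestor of every small number.
-/

set_option autoImplicit false

open Real

namespace Pool.Agent.Lib.MP_e43fce_nt.Gaps

lemma exp_le_one_add_two_mul {y : ℝ} (h0 : 0 ≤ y) (h1 : y ≤ 1 / 2) : exp y ≤ 1 + 2 * y := by
  have h2 : 1 - y ≤ exp (-y) := by
    have := add_one_le_exp (-y); linarith
  have h3 : exp y * exp (-y) = 1 := by rw [← exp_add]; simp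
  have h4 : 0 < exp y := exp_pos y
  have h5 : exp y * (1 - y) ≤ exp y * exp (-y) := by gcongr
  rw [h3] at h5
  nlinarith

lemma aux_delta {δ : ℝ} (h0 : 0 < δ) (h1 : δ ≤ 1) : 1 ≤ (1 + δ / 4) * (1 - δ / 8) := by
  nlinarith

theorem hit : ∃ c : ℝ, 0 < c ∧ ∀ ε : ℝ, 0 < ε → ε ≤ 1 → ∃ X : ℝ, ∀ x : ℝ, X ≤ x →
    1 ≤ log x ∧ ∀ m : ℕ, m % 3 ≠ 0 → (m : ℝ) ≤ x ^ (1 - ε) →
      ∃ n j : ℕ, x ≤ n ∧ (n : ℝ) ≤ x + x / (log x) ^ c ∧ (j : ℝ) ≤ 20 * log x ∧ n % 2 = 1 ∧
        Col^[j] n = m := by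
  obtain ⟨B, Cd, hB, hCd, hdisp⟩ := dispersion
  set c : ℝ := 1 / (2 * (B + 1)) with hc
  have hcpos : 0 < c := by positivity
  have hc2 : c ≤ 1 / 2 := by
    rw [hc]; apply one_div_le_one_div_of_le (by norm_num); linarith
  have hcB : c * B ≤ 1 / 2 := by
    rw [hc, div_mul_eq_mul_div, one_mul, div_le_div_iff₀ (by positivity) (by norm_num)]
    linarith
  refine ⟨c, hcpos, fun ε hε hε1 => ?_⟩
  set M : ℝ := 64 + 6 * (Cd * 4 ^ B + 3) with hM
  have hMpos : 0 < M := by positivity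
  set L₀ : ℝ := (M / ε + 1) ^ 2 with hL₀
  refine ⟨exp L₀, fun x hx => ?_⟩
  have hx0 : 0 < x := lt_of_lt_of_le (exp_pos _) hx
  set L : ℝ := log x with hL
  have hLL : L₀ ≤ L := by
    rw [hL, ← log_exp L₀]
    exact log_le_log (exp_pos _) hx
  have hMε : 0 < M / ε := by positivity
  have hL1 : 1 ≤ L := by
    have : 1 ≤ L₀ := by rw [hL₀]; exact one_le_pow₀ (by linarith)
    linarith
  have hLpos : 0 < L := by linarith
  refine ⟨hL1, fun m hm hmx => ?_⟩
  have hm1 : (1 : ℝ) ≤ m := by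
    have : m ≠ 0 := by rintro rfl; simp at hm
    exact_mod_cast Nat.one_le_iff_ne_zero.2 this
  have hm0 : (0 : ℝ) < m := by linarith
  -- the half power of L
  set s : ℝ := L ^ (1 / 2 : ℝ) with hs
  have hs2 : s * s = L := by
    rw [hs, ← rpow_add hLpos]; norm_num
  have hs0 : 0 < s := by positivity
  have hsM : M / ε + 1 ≤ s := by
    by_contra hcon
    push Not at hcon
    have : s * s < (M / ε + 1) * (M / ε + 1) := mul_self_lt_mul_self hs0.le hcon
    rw [hs2] at this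
    have h2 : L₀ = (M / ε + 1) * (M / ε + 1) := by rw [hL₀]; ring
    linarith
  have hMs : M * s ≤ ε * L := by
    have h1 : M / ε ≤ s := by linarith
    rw [div_le_iff₀ hε] at h1
    calc M * s ≤ (s * ε) * s := by gcongr
      _ = ε * (s * s) := by ring
      _ = ε * L := by rw [hs2]
  -- the width
  set δ : ℝ := (L ^ c)⁻¹ with hδ
  have hLc : 1 ≤ L ^ c := one_le_rpow hL1 hcpos.le
  have hδpos : 0 < δ := by positivity
  have hδ1 : δ ≤ 1 := inv_le_one_of_one_le₀ hLc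
  have hδinv : 1 / δ ≤ s := by
    rw [hδ, one_div, inv_inv, hs]
    exact rpow_le_rpow_of_exponent_le hL1 hc2
  -- exponents
  have hlog2 : 1 / 2 < log 2 := by
    have := log_two_gt_d9; linarith
  have hlog2' : log 2 < 1 := by
    have := log_two_lt_d9; linarith
  have hlog3 : 0 < log 3 := log_pos (by norm_num)
  have hlog3' : log 3 < 2 := by
    have : log 3 < log (2 ^ 2) := log_lt_log (by norm_num) (by norm_num)
    rw [log_pow] at this
    push_cast at this
    linarith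
  have hxm : 0 < x / m := by positivity
  have hlogxm : log (x / m) = L - log m := by rw [log_div hx0.ne' hm0.ne']
  have hlogm : log m ≤ (1 - ε) * L := by
    have := log_le_log hm0 hmx
    rwa [log_rpow hx0] at this
  have hlogm0 : 0 ≤ log m := log_nonneg hm1
  obtain ⟨k₀, b, hk₀, hb1, hb2⟩ := hdisp (δ / 4) (by positivity) (by linarith)
    (log (x / m) + δ / 4 + 3 * log 3)
  have hk₀' : (k₀ : ℝ) ≤ Cd * 4 ^ B * s := by
    refine hk₀.trans ?_
    have e : (δ / 4) ^ (-B) = 4 ^ B * (L ^ (c * B)) := by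
      rw [hδ, div_rpow (by positivity) (by norm_num), inv_rpow (by positivity), ← rpow_mul hLpos.le,
        rpow_neg (by norm_num : (0:ℝ) ≤ 4)]
      rw [mul_neg, rpow_neg hLpos.le, inv_inv, div_inv_eq_mul, mul_comm]
    rw [e, ← mul_assoc]
    gcongr
    exact rpow_le_rpow_of_exponent_le hL1 hcB
  set k : ℕ := k₀ + 3 with hk
  have hkR : (k : ℝ) = k₀ + 3 := by rw [hk]; push_cast; ring
  have hs1 : 1 ≤ s := by linarith
  have hkle : 6 * (k : ℝ) ≤ 6 * (Cd * 4 ^ B + 3) * s := by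
    have h3s : 3 ≤ 3 * s := by linarith
    rw [hkR]
    calc 6 * ((k₀ : ℝ) + 3) ≤ 6 * (Cd * 4 ^ B * s + 3 * s) := by gcongr
      _ = _ := by ring
  have hb1' : log (x / m) + δ / 4 ≤ b * log 2 - k * log 3 := by rw [hkR]; linarith
  have hb2' : b * log 2 - k * log 3 ≤ log (x / m) + δ / 2 := by rw [hkR]; linarith
  -- the gap
  obtain ⟨g, hg1, hg2⟩ : ∃ g : ℕ, 32 / δ ≤ (2 : ℝ) ^ g ∧ (2 : ℝ) ^ g ≤ 64 / δ := by
    have h32 : 1 ≤ 32 / δ := by rw [le_div_iff₀ hδpos]; linarith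
    set l := logb 2 (32 / δ) with hl
    have hl0 : 0 ≤ l := logb_nonneg (by norm_num) h32
    have h2l : (2 : ℝ) ^ l = 32 / δ := rpow_logb (by norm_num) (by norm_num) (by linarith)
    refine ⟨⌈l⌉₊, ?_, ?_⟩
    · rw [← h2l, ← rpow_natCast]
      exact rpow_le_rpow_of_exponent_le (by norm_num) (Nat.le_ceil l)
    · have h64 : 64 / δ = (2 : ℝ) ^ (l + 1) := by
        rw [rpow_add (by norm_num), h2l, rpow_one]; ring
      rw [h64, ← rpow_natCast]
      exact rpow_le_rpow_of_exponent_le (by norm_num) (Nat.ceil_lt_add_one hl0).le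
  have hgle : (g : ℝ) ≤ 64 * s := by
    calc (g : ℝ) ≤ (2 : ℝ) ^ g := by exact_mod_cast (Nat.lt_two_pow_self (n := g)).le
      _ ≤ 64 / δ := hg2
      _ = 64 * (1 / δ) := by ring
      _ ≤ 64 * s := by gcongr
  have hgk : (g : ℝ) + 6 * k ≤ ε * L := by
    refine le_trans ?_ hMs
    rw [hM]; linarith
  have hbε : ε * L ≤ b * log 2 := by
    have : 0 ≤ (k : ℝ) * log 3 := by positivity
    rw [hlogxm] at hb1'
    linarith
  have hbpos : (0 : ℝ) < b := by
    have h1 : 0 < ε * L := by positivity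
    by_contra hcon
    push Not at hcon
    have := mul_nonpos_of_nonpos_of_nonneg hcon (show 0 ≤ log 2 by linarith)
    linarith
  have hbge : ε * L ≤ b := hbε.trans (mul_le_of_le_one_right hbpos.le hlog2'.le)
  have hb0 : 0 ≤ b := by exact_mod_cast hbpos.le
  obtain ⟨B', hB'⟩ := Int.eq_ofNat_of_zero_le hb0
  have hB'R : (b : ℝ) = B' := by rw [hB']; simp
  have hgkB : g + 6 * k ≤ B' := by
    have : ((g + 6 * k : ℕ) : ℝ) ≤ B' := by
      push_cast; rw [← hB'R]; linarith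
    exact_mod_cast this
  obtain ⟨n, hn1, hn2, hn3, hn4⟩ := path hm g (k := k) (B := B') (by omega) hgkB
  have h3k : (0 : ℝ) < 3 ^ k := by positivity
  -- the main quantity
  have hratio : (2 : ℝ) ^ B' * m / 3 ^ k = m * exp (b * log 2 - k * log 3) := by
    rw [exp_sub, mul_comm (b : ℝ), mul_comm (k : ℝ), exp_mul, exp_mul, exp_log (by norm_num),
      exp_log (by norm_num), rpow_natCast, hB'R, rpow_natCast]
    ring
  have hmx' : m * exp (log (x / m)) = x := by
    rw [exp_log hxm]; field_simp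
  have hup : (2 : ℝ) ^ B' * m / 3 ^ k ≤ x * exp (δ / 2) := by
    rw [hratio]
    calc m * exp (b * log 2 - k * log 3) ≤ m * exp (log (x / m) + δ / 2) := by gcongr
      _ = (m * exp (log (x / m))) * exp (δ / 2) := by rw [exp_add]; ring
      _ = _ := by rw [hmx']
  have hlow : x * exp (δ / 4) ≤ (2 : ℝ) ^ B' * m / 3 ^ k := by
    rw [hratio]
    calc x * exp (δ / 4) = (m * exp (log (x / m))) * exp (δ / 4) := by rw [hmx']
      _ = m * exp (log (x / m) + δ / 4) := by rw [exp_add]; ring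
      _ ≤ _ := by gcongr
  refine ⟨n, B' + k, ?_, ?_, ?_, hn1, hn2⟩
  · have h1 : (2 : ℝ) ^ B' * m / 3 ^ k * (1 - δ / 8) ≤ n := by
      have h2 : 4 * (2 : ℝ) ^ B' / 2 ^ g ≤ 2 ^ B' * m * (δ / 8) := by
        have h3 : 4 / (2 : ℝ) ^ g ≤ δ / 8 := by
          rw [div_le_iff₀ (by positivity)]
          rw [div_le_iff₀ hδpos] at hg1
          linarith
        calc 4 * (2 : ℝ) ^ B' / 2 ^ g = 2 ^ B' * 1 * (4 / 2 ^ g) := by ring
          _ ≤ 2 ^ B' * m * (δ / 8) := by gcongr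
      have h4 : (2 : ℝ) ^ B' * m * (1 - δ / 8) ≤ 3 ^ k * n := by linarith
      calc (2 : ℝ) ^ B' * m / 3 ^ k * (1 - δ / 8) = 2 ^ B' * m * (1 - δ / 8) / 3 ^ k := by ring
        _ ≤ n := by rw [div_le_iff₀ h3k]; linarith
    have h5 : 1 + δ / 4 ≤ exp (δ / 4) := by
      have := add_one_le_exp (δ / 4); linarith
    calc x = x * 1 := by ring
      _ ≤ x * ((1 + δ / 4) * (1 - δ / 8)) := by
          exact mul_le_mul_of_nonneg_left (aux_delta hδpos hδ1) hx0.le
      _ ≤ x * (exp (δ / 4) * (1 - δ / 8)) := by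
          gcongr
          linarith
      _ = x * exp (δ / 4) * (1 - δ / 8) := by ring
      _ ≤ (2 : ℝ) ^ B' * m / 3 ^ k * (1 - δ / 8) := by
          gcongr
          linarith
      _ ≤ n := h1
  · calc (n : ℝ) = 3 ^ k * n / 3 ^ k := by field_simp
      _ ≤ 2 ^ B' * m / 3 ^ k := by gcongr
      _ ≤ x * exp (δ / 2) := hup
      _ ≤ x * (1 + 2 * (δ / 2)) := by
          gcongr
          exact exp_le_one_add_two_mul (by positivity) (by linarith)
      _ = x + x / L ^ c := by rw [hδ]; ring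
  · push_cast
    rw [← hB'R]
    have h1 : b * log 2 ≤ L + 1 + 2 * k := by
      have : (k : ℝ) * log 3 ≤ k * 2 := by gcongr
      rw [hlogxm] at hb2'
      linarith
    have h2 : (b : ℝ) ≤ 2 * (b * log 2) := by
      have : (b : ℝ) * 1 ≤ b * (2 * log 2) := mul_le_mul_of_nonneg_left (by linarith) hbpos.le
      linarith
    have h3 : (k : ℝ) ≤ L := by
      have h4 : (0 : ℝ) ≤ g := by positivity
      have h5 : (0 : ℝ) ≤ k := by positivity
      have h6 : ε * L ≤ 1 * L := by gcongr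
      linarith
    linarith

end Pool.Agent.Lib.MP_e43fce_nt.Gaps
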