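import Mathlib

/-!
Simultaneous rational approximations to `log (9/8)` and `log (4/3)`: algebraic part.
-/

set_option autoImplicit false

open Polynomial

namespace Pool.Agent.Lib.MP_e43fce_nt.Gaps

/-- The basic polynomial. -/
noncomputable def W : ℤ[X] := (X - C 8) ^ 4 * (X - C 9) ^ 6 * (X - C 12) ^ 8 * (X - C 10) ^ 2

/-- Its values. -/
noncomputable def w (x : ℝ) : ℝ := (x - 8) ^ 4 * (x - 9) ^ 6 * (x - 12) ^ 8 * (x - 10) ^ 2

noncomputable def W8 : ℤ[X] := (X - C 1) ^ 4 * (C 8 * X - C 9) ^ 6 * (C 2 * X - C 3) ^ 8 *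
  (C 4 * X - C 5) ^ 2

noncomputable def W9 : ℤ[X] := (C 9 * X - C 8) ^ 4 * (X - C 1) ^ 6 * (C 3 * X - C 4) ^ 8 *
  (C 9 * X - C 10) ^ 2

noncomputable def W12 : ℤ[X] := C 5184 * ((C 3 * X - C 2) ^ 4 * (C 4 * X - C 3) ^ 6 *
  (X - C 1) ^ 8 * (C 6 * X - C 5) ^ 2)

lemma comp8 : W.comp (C 8 * X) = C (8 ^ 10) * W8 := by
  simp only [W, W8, mul_comp, pow_comp, sub_comp, X_comp, C_comp]
  have e1 : (C 8 * X - C 8 : ℤ[X]) = C 8 * (X - C 1) := by rw [mul_sub, ← C_mul]; norm_num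
  have e2 : (C 8 * X - C 12 : ℤ[X]) = C 4 * (C 2 * X - C 3) := by
    rw [mul_sub, ← mul_assoc, ← C_mul, ← C_mul]; norm_num
  have e3 : (C 8 * X - C 10 : ℤ[X]) = C 2 * (C 4 * X - C 5) := by
    rw [mul_sub, ← mul_assoc, ← C_mul, ← C_mul]; norm_num
  rw [e1, e2, e3, mul_pow, mul_pow, mul_pow]
  have e4 : (C (8 ^ 10) : ℤ[X]) = C 8 ^ 4 * C 4 ^ 8 * C 2 ^ 2 := by
    rw [← C_pow, ← C_pow, ← C_pow, ← C_mul, ← C_mul]; norm_num
  rw [e4]
  ring

lemma comp9 : W.comp (C 9 * X) = C (9 ^ 10) * W9 := by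
  simp only [W, W9, mul_comp, pow_comp, sub_comp, X_comp, C_comp]
  have e1 : (C 9 * X - C 9 : ℤ[X]) = C 9 * (X - C 1) := by rw [mul_sub, ← C_mul]; norm_num
  have e2 : (C 9 * X - C 12 : ℤ[X]) = C 3 * (C 3 * X - C 4) := by
    rw [mul_sub, ← mul_assoc, ← C_mul, ← C_mul]; norm_num
  rw [e1, e2, mul_pow, mul_pow]
  have e4 : (C (9 ^ 10) : ℤ[X]) = C 9 ^ 6 * C 3 ^ 8 := by
    rw [← C_pow, ← C_pow, ← C_mul]; norm_num
  rw [e4]
  ring

lemma comp12 : W.comp (C 12 * X) = C (12 ^ 10) * W12 := by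
  simp only [W, W12, mul_comp, pow_comp, sub_comp, X_comp, C_comp]
  have e1 : (C 12 * X - C 12 : ℤ[X]) = C 12 * (X - C 1) := by rw [mul_sub, ← C_mul]; norm_num
  have e2 : (C 12 * X - C 8 : ℤ[X]) = C 4 * (C 3 * X - C 2) := by
    rw [mul_sub, ← mul_assoc, ← C_mul, ← C_mul]; norm_num
  have e3 : (C 12 * X - C 9 : ℤ[X]) = C 3 * (C 4 * X - C 3) := by
    rw [mul_sub, ← mul_assoc, ← C_mul, ← C_mul]; norm_num
  have e5 : (C 12 * X - C 10 : ℤ[X]) = C 2 * (C 6 * X - C 5) := by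
    rw [mul_sub, ← mul_assoc, ← C_mul, ← C_mul]; norm_num
  rw [e1, e2, e3, e5, mul_pow, mul_pow, mul_pow, mul_pow]
  have e4 : (C (12 ^ 10) * C 5184 : ℤ[X]) = C 4 ^ 4 * C 3 ^ 6 * C 12 ^ 8 * C 2 ^ 2 := by
    rw [← C_pow, ← C_pow, ← C_pow, ← C_pow, ← C_mul, ← C_mul, ← C_mul, ← C_mul]; norm_num
  rw [← mul_assoc (C (12 ^ 10)), e4]
  ring

lemma coeff_mul_pow {y : ℤ} {Wy : ℤ[X]} (h : W.comp (C y * X) = C (y ^ 10) * Wy) (r j : ℕ) :
    (W ^ r).coeff j * y ^ j = y ^ (10 * r) * (Wy ^ r).coeff j := by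
  rw [← comp_C_mul_X_coeff, pow_comp, h, mul_pow, ← C_pow, coeff_C_mul, ← pow_mul]

lemma natDegree_W_pow_le (r : ℕ) : (W ^ r).natDegree ≤ 20 * r := by
  refine (natDegree_pow_le).trans ?_
  rw [mul_comm]
  apply Nat.mul_le_mul_right
  unfold W
  have h : ∀ a : ℤ, (X - C a).natDegree ≤ 1 := fun a => natDegree_X_sub_C_le a
  calc _ ≤ 4 * 1 + 6 * 1 + 8 * 1 + 2 * 1 := by
        refine (natDegree_mul_le).trans (add_le_add ((natDegree_mul_le).trans (add_le_add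
          ((natDegree_mul_le).trans (add_le_add ?_ ?_)) ?_)) ?_)
        all_goals exact (natDegree_pow_le).trans (Nat.mul_le_mul_left _ (h _))
    _ = 20 := by norm_num

lemma aeval_W (x : ℝ) : aeval x W = w x := by
  simp only [W, w, map_mul, map_pow, map_sub, aeval_X, aeval_C]
  norm_num

lemma sum_coeff (r : ℕ) (x : ℝ) :
    ∑ j ∈ Finset.range (20 * r + 1), ((W ^ r).coeff j : ℝ) * x ^ j = w x ^ r := by
  rw [← aeval_W, ← map_pow, aeval_def, eval₂_eq_sum_range' _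
    (Nat.lt_succ_of_le (natDegree_W_pow_le r))]
  simp

/-! ### Size of the coefficients -/

/-- Coefficientwise domination. -/
def Maj (p q : ℤ[X]) : Prop := ∀ n, |p.coeff n| ≤ q.coeff n

lemma Maj.mul {p q p' q' : ℤ[X]} (h : Maj p q) (h' : Maj p' q') : Maj (p * p') (q * q') := by
  intro n
  rw [coeff_mul, coeff_mul]
  refine (Finset.abs_sum_le_sum_abs _ _).trans ?_
  apply Finset.sum_le_sum
  intro x _
  rw [abs_mul]
  exact mul_le_mul (h _) (h' _) (abs_nonneg _) ((abs_nonneg _).trans (h _))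

lemma Maj.one : Maj 1 1 := by
  intro n
  rw [coeff_one]
  split_ifs <;> simp

lemma Maj.pow {p q : ℤ[X]} (h : Maj p q) (n : ℕ) : Maj (p ^ n) (q ^ n) := by
  induction n with
  | zero => simpa using Maj.one
  | succ n ih => rw [pow_succ, pow_succ]; exact ih.mul h

lemma Maj.X_sub_C {a : ℤ} (ha : 0 ≤ a) : Maj (X - C a) (X + C a) := by
  intro n
  rw [coeff_sub, coeff_add, coeff_C, coeff_X]
  split_ifs <;> simp_all [abs_of_nonneg]

/-- The majorant. -/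
noncomputable def Wp : ℤ[X] := (X + C 8) ^ 4 * (X + C 9) ^ 6 * (X + C 12) ^ 8 * (X + C 10) ^ 2

lemma maj_W : Maj W Wp := by
  unfold W Wp
  exact (((Maj.X_sub_C (by norm_num)).pow _).mul ((Maj.X_sub_C (by norm_num)).pow _)).mul
    ((Maj.X_sub_C (by norm_num)).pow _) |>.mul ((Maj.X_sub_C (by norm_num)).pow _)

/-- The bound for the coefficients. -/
def C0 : ℤ := 9 ^ 4 * 10 ^ 6 * 13 ^ 8 * 11 ^ 2

lemma abs_coeff_le (r j : ℕ) : |(W ^ r).coeff j| ≤ C0 ^ r := by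
  have h := maj_W.pow r
  have h1 : C0 ^ r = (Wp ^ r).eval 1 := by
    simp [Wp, C0, eval_pow, eval_mul]
  have hnn : ∀ n, 0 ≤ (Wp ^ r).coeff n := fun n => (abs_nonneg _).trans (h n)
  refine (h j).trans ?_
  rw [h1, eval_eq_sum_range]
  simp only [one_pow, mul_one]
  by_cases hj : j < (Wp ^ r).natDegree + 1
  · exact Finset.single_le_sum (f := fun i => (Wp ^ r).coeff i) (fun i _ => hnn i)
      (Finset.mem_range.2 hj)
  · rw [coeff_eq_zero_of_natDegree_lt (by omega)]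
    exact Finset.sum_nonneg fun i _ => hnn i

end Pool.Agent.Lib.MP_e43fce_nt.Gaps
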