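import Pool.Agent.Lib.MP_e43fce_nt.Gaps.Irr1

/-!
Simultaneous rational approximations to `log (9/8)` and `log (4/3)`: the integrals.
-/

set_option autoImplicit false

open Polynomial MeasureTheory Set

namespace Pool.Agent.Lib.MP_e43fce_nt.Gaps

/-- The common coefficient. -/
noncomputable def pc (r : ℕ) : ℤ := (W ^ r).coeff (10 * r)

/-- The rational part of the antiderivative. -/
noncomputable def R (r : ℕ) (x : ℝ) : ℝ :=
  ∑ j ∈ (Finset.range (20 * r + 1)).erase (10 * r),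
    ((W ^ r).coeff j : ℝ) * (x ^ ((j : ℤ) - 10 * r) / (((j : ℤ) - 10 * r : ℤ) : ℝ))

/-- The antiderivative. -/
noncomputable def F (r : ℕ) (x : ℝ) : ℝ := pc r * Real.log x + R r x

lemma hasDerivAt_F (r : ℕ) {x : ℝ} (hx : 0 < x) :
    HasDerivAt (F r) (w x ^ r / x ^ (10 * r + 1)) x := by
  have h1 : HasDerivAt (fun x => (pc r : ℝ) * Real.log x) (pc r * x⁻¹) x :=
    (Real.hasDerivAt_log hx.ne').const_mul _
  have h2 : HasDerivAt (R r) (∑ j ∈ (Finset.range (20 * r + 1)).erase (10 * r),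
      ((W ^ r).coeff j : ℝ) * x ^ ((j : ℤ) - 10 * r - 1)) x := by
    unfold R
    apply HasDerivAt.fun_sum
    intro j hj
    apply HasDerivAt.const_mul
    have hne : (((j : ℤ) - 10 * r : ℤ) : ℝ) ≠ 0 := by
      have := (Finset.mem_erase.1 hj).1
      exact_mod_cast (show ((j : ℤ) - 10 * r) ≠ 0 by omega)
    have h3 := (hasDerivAt_zpow ((j : ℤ) - 10 * r) x (Or.inl hx.ne')).div_const
      (((j : ℤ) - 10 * r : ℤ) : ℝ)
    rw [mul_div_cancel_left₀ _ hne] at h3
    exact h3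
  have e : w x ^ r / x ^ (10 * r + 1) = pc r * x⁻¹ +
      ∑ j ∈ (Finset.range (20 * r + 1)).erase (10 * r),
      ((W ^ r).coeff j : ℝ) * x ^ ((j : ℤ) - 10 * r - 1) := by
    rw [← sum_coeff, Finset.sum_div]
    have hmem : 10 * r ∈ Finset.range (20 * r + 1) := by rw [Finset.mem_range]; omega
    rw [← Finset.add_sum_erase _ _ hmem]
    congr 1
    · rw [pc, pow_succ]
      field_simp
    · apply Finset.sum_congr rfl
      intro j _
      rw [mul_div_assoc]
      congr 1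
      rw [zpow_sub₀ hx.ne', zpow_sub₀ hx.ne', zpow_one, zpow_natCast]
      have : x ^ ((10 : ℤ) * r) = x ^ (10 * r) := by exact_mod_cast zpow_natCast x (10 * r)
      rw [this, pow_succ, div_div]
  rw [e]
  exact h1.add h2

lemma w_nonneg (x : ℝ) : 0 ≤ w x := by
  unfold w
  have h1 : 0 ≤ (x - 8) ^ 4 := by positivity
  have h2 : 0 ≤ (x - 9) ^ 6 := by positivity
  have h3 : 0 ≤ (x - 12) ^ 8 := by positivity
  have h4 : 0 ≤ (x - 10) ^ 2 := by positivity
  positivity

lemma continuous_w : Continuous w := by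
  unfold w
  fun_prop

/-- The integrals. -/
noncomputable def I (r : ℕ) (a b : ℝ) : ℝ := ∫ x in a..b, w x ^ r / x ^ (10 * r + 1)

lemma continuousOn_integrand (r : ℕ) {a b : ℝ} (ha : 0 < a) (hab : a ≤ b) :
    ContinuousOn (fun x => w x ^ r / x ^ (10 * r + 1)) (uIcc a b) := by
  apply ContinuousOn.div
  · exact (continuous_w.pow r).continuousOn
  · exact (continuous_id.pow _).continuousOn
  · intro x hx
    rw [uIcc_of_le hab] at hx
    have : 0 < x := lt_of_lt_of_le ha hx.1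
    exact (pow_pos this _).ne'

lemma I_eq (r : ℕ) {a b : ℝ} (ha : 0 < a) (hab : a ≤ b) : I r a b = F r b - F r a := by
  unfold I
  apply intervalIntegral.integral_eq_sub_of_hasDerivAt
  · intro x hx
    rw [uIcc_of_le hab] at hx
    exact hasDerivAt_F r (lt_of_lt_of_le ha hx.1)
  · exact (continuousOn_integrand r ha hab).intervalIntegrable

lemma exists_int {y : ℤ} (hy : 0 < y) {Wy : ℤ[X]} (h : W.comp (C y * X) = C (y ^ 10) * Wy)
    (r : ℕ) : ∃ z : ℤ, (Nat.lcmUpto (10 * r) : ℝ) * R r y = z := by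
  have hy0 : (y : ℝ) ≠ 0 := by exact_mod_cast hy.ne'
  have key : ∀ j ∈ (Finset.range (20 * r + 1)).erase (10 * r), ∃ z : ℤ,
      (Nat.lcmUpto (10 * r) : ℝ) * (((W ^ r).coeff j : ℝ) *
        ((y : ℝ) ^ ((j : ℤ) - 10 * r) / (((j : ℤ) - 10 * r : ℤ) : ℝ))) = z := by
    intro j hj
    rw [Finset.mem_erase, Finset.mem_range] at hj
    obtain ⟨hj1, hj2⟩ := hj
    set k : ℤ := (j : ℤ) - 10 * r with hk
    have hk0 : k ≠ 0 := by omega
    have hkabs : k.natAbs ≤ 10 * r := by omega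
    have hdvd : k ∣ (Nat.lcmUpto (10 * r) : ℤ) := by
      rw [← Int.natAbs_dvd, Int.natCast_dvd_natCast]
      unfold Nat.lcmUpto
      exact Finset.dvd_lcm (f := id) (Finset.mem_Icc.2 ⟨Int.natAbs_pos.2 hk0, hkabs⟩)
    obtain ⟨c, hc⟩ := hdvd
    refine ⟨c * (Wy ^ r).coeff j, ?_⟩
    have h1 : ((W ^ r).coeff j : ℝ) * (y : ℝ) ^ k = (Wy ^ r).coeff j := by
      have h2 := coeff_mul_pow h r j
      have h3 : ((W ^ r).coeff j : ℝ) * (y : ℝ) ^ j = (y : ℝ) ^ (10 * r) * (Wy ^ r).coeff j := by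
        exact_mod_cast h2
      rw [hk, zpow_sub₀ hy0, zpow_natCast]
      have : (y : ℝ) ^ ((10 : ℤ) * r) = (y : ℝ) ^ (10 * r) := by
        exact_mod_cast zpow_natCast (y : ℝ) (10 * r)
      rw [this, ← mul_div_assoc, h3]
      field_simp
    have hkR : (k : ℝ) ≠ 0 := by exact_mod_cast hk0
    have hcR : (Nat.lcmUpto (10 * r) : ℝ) = k * c := by exact_mod_cast hc
    rw [hcR, ← mul_div_assoc, h1]
    push_cast
    field_simp
  unfold R
  rw [Finset.mul_sum]
  choose! z hz using key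
  refine ⟨∑ j ∈ (Finset.range (20 * r + 1)).erase (10 * r), z j, ?_⟩
  rw [Int.cast_sum]
  exact Finset.sum_congr rfl hz

/-- The two linear forms. -/
theorem exists_int_forms (r : ℕ) : ∃ z₁ z₂ : ℤ,
    (Nat.lcmUpto (10 * r) : ℝ) * I r 8 9 =
      Nat.lcmUpto (10 * r) * pc r * Real.log (9 / 8) + z₁ ∧
    (Nat.lcmUpto (10 * r) : ℝ) * I r 9 12 =
      Nat.lcmUpto (10 * r) * pc r * Real.log (4 / 3) + z₂ := by
  obtain ⟨a, ha⟩ := exists_int (y := 8) (by norm_num) comp8 r
  obtain ⟨b, hb⟩ := exists_int (y := 9) (by norm_num) comp9 r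
  obtain ⟨c, hc⟩ := exists_int (y := 12) (by norm_num) comp12 r
  push_cast at ha hb hc
  refine ⟨b - a, c - b, ?_, ?_⟩
  · rw [I_eq r (by norm_num) (by norm_num), F, F, Real.log_div (by norm_num) (by norm_num)]
    push_cast
    rw [← ha, ← hb]
    ring
  · have e : Real.log (4 / 3) = Real.log 12 - Real.log 9 := by
      rw [← Real.log_div (by norm_num) (by norm_num)]
      norm_num
    rw [I_eq r (by norm_num) (by norm_num), F, F, e]
    push_cast
    rw [← hc, ← hb]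
    ring

end Pool.Agent.Lib.MP_e43fce_nt.Gaps
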