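import Pool.Agent.Lib.MP_e43fce_nt.Gaps.Irr2

/-!
Simultaneous rational approximations to `log (9/8)` and `log (4/3)`: estimates.
-/

set_option autoImplicit false

open Polynomial MeasureTheory Set

namespace Pool.Agent.Lib.MP_e43fce_nt.Gaps

lemma grid_nat : ∀ i < 400, (i + 1) ^ 4 * (max (100 - i) (i - 99)) ^ 6 * (400 - i) ^ 8 *
    (max (200 - i) (i - 199)) ^ 2 * 10 ^ 7 ≤ 3 * ((800 + i) ^ 10 * 100 ^ 10) := by
  decide +kernel

lemma grid_nat1 : ∀ i < 100, (i + 1) ^ 4 * (max (100 - i) (i - 99)) ^ 6 * (400 - i) ^ 8 *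
    (max (200 - i) (i - 199)) ^ 2 * 10 ^ 9 ≤ 72 * ((800 + i) ^ 10 * 100 ^ 10) := by
  decide +kernel

/-- The grid bound for one cell. -/
lemma w_le_cell {x : ℝ} {i : ℕ} (hi : i < 400) (h1 : (800 + i : ℝ) ≤ 100 * x)
    (h2 : 100 * x ≤ 801 + i) : w x * 100 ^ 20 ≤
      (((i + 1) ^ 4 * (max (100 - i) (i - 99)) ^ 6 * (400 - i) ^ 8 *
        (max (200 - i) (i - 199)) ^ 2 : ℕ) : ℝ) := by
  have e : w x * 100 ^ 20 = (100 * x - 800) ^ 4 * (100 * x - 900) ^ 6 * (100 * x - 1200) ^ 8 *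
      (100 * x - 1000) ^ 2 := by
    unfold w; ring
  rw [e]
  push_cast
  have a1 : |100 * x - 800| ≤ (i + 1 : ℝ) := by
    rw [abs_le]; constructor <;> linarith
  have hn : ∀ m n : ℕ, (m : ℝ) - n ≤ ((m - n : ℕ) : ℝ) := by
    intro m n
    rcases le_total n m with h | h
    · rw [Nat.cast_sub h]
    · rw [Nat.sub_eq_zero_of_le h]
      have : (m : ℝ) ≤ n := by exact_mod_cast h
      simp; linarith
  have a2 : |100 * x - 900| ≤ max ((100 - i : ℕ) : ℝ) ((i - 99 : ℕ) : ℝ) := by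
    have b1 := hn 100 i
    have b2 := hn i 99
    push_cast at b1 b2
    rw [abs_le]
    constructor
    · have := le_max_left ((100 - i : ℕ) : ℝ) ((i - 99 : ℕ) : ℝ)
      linarith
    · have := le_max_right ((100 - i : ℕ) : ℝ) ((i - 99 : ℕ) : ℝ)
      linarith
  have a3 : |100 * x - 1200| ≤ ((400 - i : ℕ) : ℝ) := by
    have b1 := hn 400 i
    push_cast at b1
    have b2 : (i : ℝ) ≤ 399 := by exact_mod_cast (by omega : i ≤ 399)
    rw [abs_le]; constructor <;> linarith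
  have a4 : |100 * x - 1000| ≤ max ((200 - i : ℕ) : ℝ) ((i - 199 : ℕ) : ℝ) := by
    have b1 := hn 200 i
    have b2 := hn i 199
    push_cast at b1 b2
    rw [abs_le]
    constructor
    · have := le_max_left ((200 - i : ℕ) : ℝ) ((i - 199 : ℕ) : ℝ)
      linarith
    · have := le_max_right ((200 - i : ℕ) : ℝ) ((i - 199 : ℕ) : ℝ)
      linarith
  have c1 : (100 * x - 800) ^ 4 ≤ (i + 1 : ℝ) ^ 4 := by
    rw [← Even.pow_abs (by decide : Even 4)]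
    exact pow_le_pow_left₀ (abs_nonneg _) a1 4
  have c2 : (100 * x - 900) ^ 6 ≤ (max ((100 - i : ℕ) : ℝ) ((i - 99 : ℕ) : ℝ)) ^ 6 := by
    rw [← Even.pow_abs (by decide : Even 6)]
    exact pow_le_pow_left₀ (abs_nonneg _) a2 6
  have c3 : (100 * x - 1200) ^ 8 ≤ ((400 - i : ℕ) : ℝ) ^ 8 := by
    rw [← Even.pow_abs (by decide : Even 8)]
    exact pow_le_pow_left₀ (abs_nonneg _) a3 8
  have c4 : (100 * x - 1000) ^ 2 ≤ (max ((200 - i : ℕ) : ℝ) ((i - 199 : ℕ) : ℝ)) ^ 2 := by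
    rw [← Even.pow_abs (by decide : Even 2)]
    exact pow_le_pow_left₀ (abs_nonneg _) a4 2
  gcongr

lemma exists_cell {x : ℝ} {N : ℕ} (hN : 0 < N) (h1 : 8 ≤ x) (h2 : 100 * x ≤ 800 + N) :
    ∃ i < N, (800 + i : ℝ) ≤ 100 * x ∧ 100 * x ≤ 801 + i := by
  by_cases h : 100 * x = 800 + N
  · refine ⟨N - 1, by omega, ?_, ?_⟩
    · rw [h, Nat.cast_sub (by omega)]; push_cast; linarith
    · rw [h, Nat.cast_sub (by omega)]; push_cast; linarith
  · have h3 : 0 ≤ 100 * x - 800 := by linarith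
    refine ⟨⌊100 * x - 800⌋₊, ?_, ?_, ?_⟩
    · rw [Nat.floor_lt h3]
      have := lt_of_le_of_ne h2 h
      linarith
    · have := Nat.floor_le h3
      linarith
    · have := Nat.lt_floor_add_one (100 * x - 800)
      linarith

lemma w_le {x : ℝ} (h1 : 8 ≤ x) (h2 : x ≤ 12) : w x ≤ 3 / 10 ^ 7 * x ^ 10 := by
  obtain ⟨i, hi, h3, h4⟩ := exists_cell (x := x) (N := 400) (by norm_num) h1 (by
    push_cast; linarith)
  have h5 := w_le_cell hi h3 h4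
  have h6 : (((i + 1) ^ 4 * (max (100 - i) (i - 99)) ^ 6 * (400 - i) ^ 8 *
    (max (200 - i) (i - 199)) ^ 2 * 10 ^ 7 : ℕ) : ℝ) ≤
      ((3 * ((800 + i) ^ 10 * 100 ^ 10) : ℕ) : ℝ) := Nat.cast_le.2 (grid_nat i hi)
  rw [Nat.cast_mul _ (10 ^ 7)] at h6
  have h7 : ((3 * ((800 + i) ^ 10 * 100 ^ 10) : ℕ) : ℝ) ≤ 3 * ((100 * x) ^ 10 * 100 ^ 10) := by
    push_cast
    gcongr
    norm_num
  have h8 : w x * 100 ^ 20 * ((10 ^ 7 : ℕ) : ℝ) ≤ 3 * ((100 * x) ^ 10 * 100 ^ 10) :=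
    (mul_le_mul_of_nonneg_right h5 (by positivity)).trans (h6.trans h7)
  have h9 : w x * 100 ^ 20 * ((10 ^ 7 : ℕ) : ℝ) = w x * (100 ^ 20 * 10 ^ 7) := by
    push_cast; ring
  have h10 : 3 * ((100 * x) ^ 10 * 100 ^ 10) = 3 / 10 ^ 7 * x ^ 10 * (100 ^ 20 * 10 ^ 7) := by
    ring
  rw [h9, h10] at h8
  exact le_of_mul_le_mul_right h8 (by norm_num)

lemma w_le' {x : ℝ} (h1 : 8 ≤ x) (h2 : x ≤ 9) : w x ≤ 72 / 10 ^ 9 * x ^ 10 := by
  obtain ⟨i, hi, h3, h4⟩ := exists_cell (x := x) (N := 100) (by norm_num) h1 (by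
    push_cast; linarith)
  have h5 := w_le_cell (by omega) h3 h4
  have h6 : (((i + 1) ^ 4 * (max (100 - i) (i - 99)) ^ 6 * (400 - i) ^ 8 *
    (max (200 - i) (i - 199)) ^ 2 * 10 ^ 9 : ℕ) : ℝ) ≤
      ((72 * ((800 + i) ^ 10 * 100 ^ 10) : ℕ) : ℝ) := Nat.cast_le.2 (grid_nat1 i hi)
  rw [Nat.cast_mul _ (10 ^ 9)] at h6
  have h7 : ((72 * ((800 + i) ^ 10 * 100 ^ 10) : ℕ) : ℝ) ≤ 72 * ((100 * x) ^ 10 * 100 ^ 10) := by
    push_cast
    gcongr
    norm_num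
  have h8 : w x * 100 ^ 20 * ((10 ^ 9 : ℕ) : ℝ) ≤ 72 * ((100 * x) ^ 10 * 100 ^ 10) :=
    (mul_le_mul_of_nonneg_right h5 (by positivity)).trans (h6.trans h7)
  have h9 : w x * 100 ^ 20 * ((10 ^ 9 : ℕ) : ℝ) = w x * (100 ^ 20 * 10 ^ 9) := by
    push_cast; ring
  have h10 : 72 * ((100 * x) ^ 10 * 100 ^ 10) = 72 / 10 ^ 9 * x ^ 10 * (100 ^ 20 * 10 ^ 9) := by
    ring
  rw [h9, h10] at h8
  exact le_of_mul_le_mul_right h8 (by norm_num)

lemma le_w {x : ℝ} (h1 : 10.7 ≤ x) (h2 : x ≤ 10.8) : 12 / 10 ^ 8 * x ^ 10 ≤ w x := by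
  unfold w
  have c1 : (2.7 : ℝ) ^ 4 ≤ (x - 8) ^ 4 := by gcongr; linarith
  have c2 : (1.7 : ℝ) ^ 6 ≤ (x - 9) ^ 6 := by gcongr; linarith
  have c3 : (1.2 : ℝ) ^ 8 ≤ (x - 12) ^ 8 := by
    have e : (x - 12) ^ 8 = (12 - x) ^ 8 := by ring
    rw [e]
    gcongr
    linarith
  have c4 : (0.7 : ℝ) ^ 2 ≤ (x - 10) ^ 2 := by gcongr; linarith
  calc 12 / 10 ^ 8 * x ^ 10 ≤ 12 / 10 ^ 8 * 10.8 ^ 10 := by gcongr
    _ ≤ (2.7 : ℝ) ^ 4 * 1.7 ^ 6 * 1.2 ^ 8 * 0.7 ^ 2 := by norm_num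
    _ ≤ _ := by gcongr

lemma integrand_le {K x : ℝ} (hx : 8 ≤ x) (h : w x ≤ K * x ^ 10) (r : ℕ) :
    w x ^ r / x ^ (10 * r + 1) ≤ K ^ r / 8 := by
  have hx0 : 0 < x := by linarith
  have hw := w_nonneg x
  have hK : 0 ≤ K := by
    by_contra hcon
    push Not at hcon
    have : K * x ^ 10 < 0 := mul_neg_of_neg_of_pos hcon (by positivity)
    linarith
  calc w x ^ r / x ^ (10 * r + 1) ≤ (K * x ^ 10) ^ r / x ^ (10 * r + 1) := by gcongr
    _ = K ^ r / x := by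
        rw [mul_pow, ← pow_mul, pow_succ]
        field_simp
    _ ≤ K ^ r / 8 := by gcongr

lemma I_nonneg (r : ℕ) {a b : ℝ} (ha : 0 < a) (hab : a ≤ b) : 0 ≤ I r a b := by
  unfold I
  apply intervalIntegral.integral_nonneg hab
  intro x hx
  have : 0 < x := lt_of_lt_of_le ha hx.1
  have := w_nonneg x
  positivity

lemma I_le {K a b : ℝ} (ha : 8 ≤ a) (hab : a ≤ b) (h : ∀ x ∈ Icc a b, w x ≤ K * x ^ 10) (r : ℕ) :
    I r a b ≤ (b - a) * (K ^ r / 8) := by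
  unfold I
  have h1 : ∫ x in a..b, w x ^ r / x ^ (10 * r + 1) ≤ ∫ x in a..b, K ^ r / 8 := by
    apply intervalIntegral.integral_mono_on hab
    · exact (continuousOn_integrand r (by linarith) hab).intervalIntegrable
    · exact intervalIntegrable_const
    · intro x hx
      exact integrand_le (ha.trans hx.1) (h x hx) r
  rw [intervalIntegral.integral_const, smul_eq_mul] at h1
  exact h1

lemma I1_le (r : ℕ) : I r 8 9 ≤ (72 / 10 ^ 9) ^ r / 8 := by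
  have h := I_le (K := 72 / 10 ^ 9) (a := 8) (b := 9) le_rfl (by norm_num)
    (fun x hx => w_le' hx.1 hx.2) r
  norm_num at h ⊢
  linarith

lemma I1_le' (r : ℕ) : I r 8 9 ≤ (3 / 10 ^ 7) ^ r / 8 := by
  have h := I_le (K := 3 / 10 ^ 7) (a := 8) (b := 9) le_rfl (by norm_num)
    (fun x hx => w_le hx.1 (hx.2.trans (by norm_num))) r
  norm_num at h ⊢
  linarith

lemma I2_le (r : ℕ) : I r 9 12 ≤ 3 * ((3 / 10 ^ 7) ^ r / 8) := by
  have h := I_le (K := 3 / 10 ^ 7) (a := 9) (b := 12) (by norm_num) (by norm_num)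
    (fun x hx => w_le (le_trans (by norm_num) hx.1) hx.2) r
  norm_num at h ⊢
  linarith

lemma le_I2 (r : ℕ) : (12 / 10 ^ 8) ^ r / 108 ≤ I r 9 12 := by
  have h0 : (12 / 10 ^ 8 : ℝ) ^ r / 108 = ∫ x in (10.7 : ℝ)..10.8, (12 / 10 ^ 8 : ℝ) ^ r / 10.8 := by
    rw [intervalIntegral.integral_const, smul_eq_mul]
    ring
  have h1 : ∫ x in (10.7 : ℝ)..10.8, (12 / 10 ^ 8 : ℝ) ^ r / 10.8 ≤ I r 10.7 10.8 := by
    unfold I
    apply intervalIntegral.integral_mono_on (by norm_num)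
    · exact intervalIntegrable_const
    · exact (continuousOn_integrand r (by norm_num) (by norm_num)).intervalIntegrable
    · intro x hx
      have hx0 : 0 < x := by have := hx.1; norm_num at this; linarith
      calc (12 / 10 ^ 8 : ℝ) ^ r / 10.8 ≤ (12 / 10 ^ 8 : ℝ) ^ r / x := by
            gcongr
            exact hx.2
        _ = (12 / 10 ^ 8 * x ^ 10) ^ r / x ^ (10 * r + 1) := by
            rw [mul_pow, ← pow_mul, pow_succ x (10 * r)]
            field_simp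
        _ ≤ _ := by
            gcongr
            exact le_w hx.1 hx.2
  have h2 : I r 10.7 10.8 ≤ I r 9 12 := by
    have e : I r 9 12 = I r 9 10.7 + I r 10.7 10.8 + I r 10.8 12 := by
      rw [I_eq r (by norm_num) (by norm_num), I_eq r (by norm_num) (by norm_num),
        I_eq r (by norm_num) (by norm_num), I_eq r (by norm_num) (by norm_num)]
      ring
    have h3 := I_nonneg r (a := 9) (b := 10.7) (by norm_num) (by norm_num)
    have h4 := I_nonneg r (a := 10.8) (b := 12) (by norm_num) (by norm_num)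
    linarith
  linarith

/-- Comparison of the two integrals. -/
lemma six_mul_I1_le {r : ℕ} (hr : 10 ≤ r) : 6 * I r 8 9 ≤ I r 9 12 := by
  have h1 := I1_le r
  have h2 := le_I2 r
  have h3 : 81 * (72 / 10 ^ 9 : ℝ) ^ r ≤ (12 / 10 ^ 8) ^ r := by
    have e : (12 / 10 ^ 8 : ℝ) = (5 / 3) * (72 / 10 ^ 9) := by norm_num
    rw [e, mul_pow]
    gcongr
    calc (81 : ℝ) ≤ (5 / 3) ^ 10 := by norm_num
      _ ≤ (5 / 3) ^ r := pow_le_pow_right₀ (by norm_num) hr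
  linarith

end Pool.Agent.Lib.MP_e43fce_nt.Gaps
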